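import Pool.Agent.H73.TF.Defs

/-!
Termination of flips on varieties with a simplicial nef cone and reflections.
-/

set_option autoImplicit false

open FF Pool.Agent.W602.GT

namespace Pool.Agent.H73.TF

section

variable {K : Type} [Field K] [Algebra ℂ K] {p N : ℕ} {δ δ' δ'' : Fin p → Place ℂ K → ℚ}

/-- the image of a place under an automorphism -/
def pl (φ : K ≃ₐ[ℂ] K) (P : Place ℂ K) : Place ℂ K where
  ord f := P.ord (φ f)
  ord_zero := by rw [map_zero, P.ord_zero]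
  ord_mul hf hg := by
    rw [map_mul, P.ord_mul (by rwa [Ne, map_eq_zero]) (by rwa [Ne, map_eq_zero])]
  ord_add hf hg hfg := by
    rw [map_add]
    exact P.ord_add (by rwa [Ne, map_eq_zero]) (by rwa [Ne, map_eq_zero])
      (by rwa [← map_add, Ne, map_eq_zero])
  ord_const hc := by rw [φ.commutes, P.ord_const hc]
  surj := by
    obtain ⟨t, ht, h⟩ := P.surj
    exact ⟨φ.symm t, by rwa [Ne, map_eq_zero], by rw [AlgEquiv.apply_symm_apply]; exact h⟩

theorem pl_ord (φ : K ≃ₐ[ℂ] K) (P : Place ℂ K) (f : K) : (pl φ P).ord f = P.ord (φ f) := rfl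

theorem pl_div (φ : K ≃ₐ[ℂ] K) {P : Place ℂ K} (h : Divisorial N P) : Divisorial N (pl φ P) := by
  obtain ⟨u, hu⟩ := h
  refine ⟨fun i => φ.symm (u i), fun F hF => ?_⟩
  have h1 : φ (MvPolynomial.aeval (fun i => φ.symm (u i)) F) = MvPolynomial.aeval u F := by
    have h2 : (φ : K →ₐ[ℂ] K) (MvPolynomial.aeval (fun i => φ.symm (u i)) F) =
        MvPolynomial.aeval (fun i => (φ : K →ₐ[ℂ] K) (φ.symm (u i))) F := by
      rw [MvPolynomial.comp_aeval_apply]
    have h3 : (fun i => (φ : K →ₐ[ℂ] K) (φ.symm (u i))) = u := by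
      funext i
      exact φ.apply_symm_apply (u i)
    rw [h3] at h2
    exact h2
  obtain ⟨h2, h3⟩ := hu F hF
  refine ⟨fun h0 => ?_, ?_⟩
  · rw [h0, map_zero] at h1
    exact h2 h1.symm
  · rw [pl_ord, h1]
    exact h3

theorem pl_pl {φ : K ≃ₐ[ℂ] K} (h : ∀ f, φ (φ f) = f) (P : Place ℂ K) : pl φ (pl φ P) = P := by
  ext f
  rw [pl_ord, pl_ord, h]

/-! ### sections and semiample combinations -/

/-- the two families of coefficients agree at the divisorial places -/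
def Eqv (N : ℕ) (δ' δ'' : Fin p → Place ℂ K → ℚ) : Prop :=
  ∀ P, Divisorial N P → ∀ i, δ' i P = δ'' i P

/-- the same sections -/
def Same (N : ℕ) (δ' δ'' : Fin p → Place ℂ K → ℚ) : Prop :=
  ∀ (μ : Fin p → ℤ) (f : K), IsSection N δ' μ f ↔ IsSection N δ'' μ f

theorem Eqv.symm (h : Eqv N δ' δ'') : Eqv N δ'' δ' := fun P hP i => (h P hP i).symm

theorem Eqv.trans {δ₃ : Fin p → Place ℂ K → ℚ} (h : Eqv N δ' δ'') (h' : Eqv N δ'' δ₃) :
    Eqv N δ' δ₃ := fun P hP i => (h P hP i).trans (h' P hP i)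

theorem Eqv.sum (h : Eqv N δ' δ'') {P : Place ℂ K} (hP : Divisorial N P) (μ : Fin p → ℚ) :
    ∑ i, μ i * δ' i P = ∑ i, μ i * δ'' i P :=
  Finset.sum_congr rfl fun i _ => by rw [h P hP i]

theorem Eqv.same (h : Eqv N δ' δ'') : Same N δ' δ'' := by
  intro μ f
  unfold IsSection
  refine forall₂_congr fun P hP => ?_
  rw [h.sum hP]

theorem Same.symm (h : Same N δ' δ'') : Same N δ'' δ' := fun μ f => (h μ f).symm

theorem Same.trans {δ₃ : Fin p → Place ℂ K → ℚ} (h : Same N δ' δ'') (h' : Same N δ'' δ₃) :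
    Same N δ' δ₃ := fun μ f => (h μ f).trans (h' μ f)

theorem Eqv.bpf (h : Eqv N δ' δ'') {ν : Fin p → ℤ} (hν : BasePointFree N δ' ν) :
    BasePointFree N δ'' ν := by
  intro P hP
  obtain ⟨f, hf0, hf, hfo⟩ := hν P hP
  refine ⟨f, hf0, (h.same ν f).1 hf, ?_⟩
  rwa [h.sum hP] at hfo

theorem Eqv.semiample (h : Eqv N δ' δ'') {μ : Fin p → ℚ} (hμ : Semiample N δ' μ) :
    Semiample N δ'' μ := by
  obtain ⟨k, hk, ν, hν, hb⟩ := hμ
  exact ⟨k, hk, ν, hν, h.bpf hb⟩

theorem IsSection.mul {μ ν : Fin p → ℤ} {f g : K} (hf : IsSection N δ μ f)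
    (hg : IsSection N δ ν g) : IsSection N δ (μ + ν) (f * g) := by
  intro P hP
  rcases hf P hP with h1 | h1
  · left; rw [h1, zero_mul]
  rcases hg P hP with h2 | h2
  · left; rw [h2, mul_zero]
  by_cases hf0 : f = 0
  · left; rw [hf0, zero_mul]
  by_cases hg0 : g = 0
  · left; rw [hg0, mul_zero]
  right
  rw [P.ord_mul hf0 hg0]
  have e : ∑ i, (((μ + ν) i : ℤ) : ℚ) * δ i P =
      ∑ i, (μ i : ℚ) * δ i P + ∑ i, (ν i : ℚ) * δ i P := by
    rw [← Finset.sum_add_distrib]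
    refine Finset.sum_congr rfl fun i _ => ?_
    rw [Pi.add_apply]
    push_cast
    ring
  rw [e]
  push_cast
  linarith

theorem BasePointFree.add {μ ν : Fin p → ℤ} (h1 : BasePointFree N δ μ)
    (h2 : BasePointFree N δ ν) : BasePointFree N δ (μ + ν) := by
  intro P hP
  obtain ⟨f, hf0, hf, hfo⟩ := h1 P hP
  obtain ⟨g, hg0, hg, hgo⟩ := h2 P hP
  refine ⟨f * g, mul_ne_zero hf0 hg0, hf.mul hg, ?_⟩
  rw [P.ord_mul hf0 hg0]
  have e : ∑ i, (((μ + ν) i : ℤ) : ℚ) * δ i P =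
      ∑ i, (μ i : ℚ) * δ i P + ∑ i, (ν i : ℚ) * δ i P := by
    rw [← Finset.sum_add_distrib]
    refine Finset.sum_congr rfl fun i _ => ?_
    rw [Pi.add_apply]
    push_cast
    ring
  rw [e]
  push_cast
  linarith

theorem isSection_one : IsSection N δ 0 (1 : K) := by
  intro P _
  right
  rw [P.ord_one]
  simp

theorem bpf_zero : BasePointFree N δ 0 := by
  intro P _
  refine ⟨1, one_ne_zero, isSection_one, ?_⟩
  rw [P.ord_one]
  simp

theorem BasePointFree.nsmul {μ : Fin p → ℤ} (h : BasePointFree N δ μ) (k : ℕ) :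
    BasePointFree N δ (k • μ) := by
  induction k with
  | zero =>
    rw [zero_smul]
    exact bpf_zero
  | succ k ih =>
    rw [succ_nsmul]
    exact ih.add h

theorem IsSection.pow {μ : Fin p → ℤ} {f : K} (h : IsSection N δ μ f) (k : ℕ) :
    IsSection N δ (k • μ) (f ^ k) := by
  induction k with
  | zero =>
    rw [zero_smul, pow_zero]
    exact isSection_one
  | succ k ih =>
    rw [succ_nsmul, pow_succ]
    exact ih.mul h

theorem Semiample.add {μ ν : Fin p → ℚ} (h1 : Semiample N δ μ) (h2 : Semiample N δ ν) :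
    Semiample N δ (μ + ν) := by
  obtain ⟨k, hk, a, ha, hab⟩ := h1
  obtain ⟨l, hl, b, hb, hbb⟩ := h2
  refine ⟨k * l, Nat.mul_pos hk hl, l • a + k • b, fun i => ?_, (hab.nsmul l).add (hbb.nsmul k)⟩
  have e1 := ha i
  have e2 := hb i
  have e3 : (l • a + k • b) i = (l : ℤ) * a i + k * b i := by simp
  rw [e3, Pi.add_apply]
  push_cast
  rw [← e1, ← e2]
  ring

theorem Semiample.smul {μ : Fin p → ℚ} (h : Semiample N δ μ) {t : ℚ} (ht : 0 ≤ t) :
    Semiample N δ (t • μ) := by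
  obtain ⟨k, hk, a, ha, hab⟩ := h
  refine ⟨k * t.den, Nat.mul_pos hk t.den_pos, t.num.toNat • a, fun i => ?_, hab.nsmul _⟩
  have e1 := ha i
  have h3 : ((t.num.toNat : ℕ) : ℤ) = t.num := Int.toNat_of_nonneg (Rat.num_nonneg.2 ht)
  have h4 : ((t.num.toNat : ℕ) : ℚ) = t.num := by exact_mod_cast h3
  have h5 : (t.den : ℚ) * t = t.num := by
    rw [mul_comm]; exact Rat.mul_den_eq_num t
  have e3 : (t.num.toNat • a) i = (t.num.toNat : ℤ) * a i := by simp
  rw [e3, Pi.smul_apply, smul_eq_mul]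
  push_cast
  rw [h4, ← e1, ← h5]
  ring

/-- nonnegative combinations of semiample combinations -/
theorem semiample_of_basis (h : ∀ i, Semiample N δ (Pi.single i 1)) {μ : Fin p → ℚ}
    (hμ : ∀ i, 0 ≤ μ i) : Semiample N δ μ := by
  have h1 : ∀ s : Finset (Fin p), Semiample N δ (∑ i ∈ s, μ i • Pi.single i (1 : ℚ)) := by
    intro s
    induction s using Finset.induction_on with
    | empty =>
      rw [Finset.sum_empty]
      exact ⟨1, le_rfl, 0, by simp, bpf_zero⟩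
    | insert i s hi ih =>
      rw [Finset.sum_insert hi]
      exact ((h i).smul (hμ i)).add ih
  have h2 := h1 Finset.univ
  have h3 : ∑ i, μ i • (Pi.single i (1 : ℚ) : Fin p → ℚ) = μ := by
    ext k
    rw [Finset.sum_apply]
    simp [Pi.single_apply]
  rwa [h3] at h2

/-- a semiample combination has a nonzero section after multiplication -/
theorem Semiample.eff (hd : ∃ P : Place ℂ K, Divisorial N P) {μ : Fin p → ℚ}
    (h : Semiample N δ μ) : ∃ k : ℕ, 1 ≤ k ∧ ∃ ν : Fin p → ℤ, (∀ i, (k : ℚ) * μ i = ν i) ∧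
      ∃ f, f ≠ 0 ∧ IsSection N δ ν f := by
  obtain ⟨k, hk, ν, hν, hb⟩ := h
  obtain ⟨P, hP⟩ := hd
  obtain ⟨f, hf0, hf, -⟩ := hb P hP
  exact ⟨k, hk, ν, hν, f, hf0, hf⟩

/-- the coefficients of a semiample combination are the smallest ones -/
theorem Semiample.le {μ : Fin p → ℚ} (h : Semiample N δ' μ) (hs : Same N δ' δ'') {P : Place ℂ K}
    (hP : Divisorial N P) : ∑ i, μ i * δ' i P ≤ ∑ i, μ i * δ'' i P := by
  obtain ⟨k, hk, ν, hν, hb⟩ := h
  obtain ⟨f, hf0, hf, hfo⟩ := hb P hP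
  have h1 := ((hs ν f).1 hf P hP).resolve_left hf0
  have e : ∀ ε : Fin p → Place ℂ K → ℚ, ∑ i, (ν i : ℚ) * ε i P = k * ∑ i, μ i * ε i P := by
    intro ε
    rw [Finset.mul_sum]
    refine Finset.sum_congr rfl fun i _ => ?_
    rw [← hν i]
    ring
  rw [e] at h1 hfo
  have hk' : (0 : ℚ) < k := by exact_mod_cast hk
  nlinarith

theorem Semiample.eq {μ : Fin p → ℚ} (h : Semiample N δ' μ) (h' : Semiample N δ'' μ)
    (hs : Same N δ' δ'') {P : Place ℂ K} (hP : Divisorial N P) :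
    ∑ i, μ i * δ' i P = ∑ i, μ i * δ'' i P :=
  le_antisymm (h.le hs hP) (h'.le hs.symm hP)

end

end Pool.Agent.H73.TF
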