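import Pool.Agent.Y172.Loc3

/-!
Small modifications and flips, described by the coefficients of the pullbacks of the strict
transforms of divisors at the prime divisors over a variety.
-/

set_option autoImplicit false

open FF Pool.Agent.W602.GT

namespace Pool.Agent.H73.TF

section

variable {K : Type} [Field K] [Algebra ℂ K] {p : ℕ} (N : ℕ) (δ : Fin p → Place ℂ K → ℚ)

/-- `f` is a section of `∑ i, μ i * D i`: its order at every prime divisor `P` over `X` (every
divisorial place `P` of `K`) is at least minus the coefficient `∑ i, μ i * δ i P` of the pullback of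
`∑ i, μ i * D i`, or `f = 0`. -/
def IsSection (μ : Fin p → ℤ) (f : K) : Prop :=
  ∀ P : Place ℂ K, Divisorial N P → f = 0 ∨ - ∑ i, (μ i : ℚ) * δ i P ≤ P.ord f

/-- The linear system of the integral combination `∑ i, μ i * D i` has no base points: it has for
every prime divisor `P` over `X` a section which does not vanish at `P`, that is, its order at `P` is
the minimal one. -/
def BasePointFree (μ : Fin p → ℤ) : Prop :=
  ∀ P : Place ℂ K, Divisorial N P → ∃ f : K, f ≠ 0 ∧ IsSection N δ μ f ∧
    (P.ord f : ℚ) ≤ - ∑ i, (μ i : ℚ) * δ i P

/-- A positive multiple of the rational combination `∑ i, μ i * D i` is an integral combination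
without base points. -/
def Semiample (μ : Fin p → ℚ) : Prop :=
  ∃ k : ℕ, 1 ≤ k ∧ ∃ ν : Fin p → ℤ, (∀ i, (k : ℚ) * μ i = ν i) ∧ BasePointFree N δ ν

/-- The coefficients `δ'` are those of the strict transforms of the `D i` on a small modification
`X'` of `X` on which they are `ℚ`-Cartier and some rational combination of them is ample: all
integral combinations have the same sections on `X` and on `X'`, and the rational combinations near
some combination `lam` are semiample on `X'`. -/
def IsSmallModification (δ' : Fin p → Place ℂ K → ℚ) : Prop :=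
  (∀ (μ : Fin p → ℤ) (f : K), IsSection N δ μ f ↔ IsSection N δ' μ f) ∧
    ∃ (lam : Fin p → ℚ) (ε : ℚ), 0 < ε ∧
      ∀ μ : Fin p → ℚ, (∀ i, |μ i - lam i| ≤ ε) → Semiample N δ' μ

/-- The small modification `X''` with the coefficients `δ''` is a flip of the small modification
`X'` with the coefficients `δ'` for the real combination `∑ i, w i * D i`, and `ℓ i` are the
intersection numbers of the `D i` with the extremal ray of `X'` which is contracted by
`X' → Z`: the intersection number of `∑ i, w i * D i` with this ray is negative, those of the
semiample combinations on `X'` are nonnegative, those of the semiample combinations on `X''` are not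
positive, and the combinations which are near some combination `L` (the pullback of an ample divisor
on `Z`) and have intersection number zero with the ray are semiample on `X'` and on `X''` (the
pullbacks of ample divisors on `Z`). -/
def IsFlip (w : Fin p → ℝ) (δ' δ'' : Fin p → Place ℂ K → ℚ) : Prop :=
  ∃ (ℓ L : Fin p → ℚ) (ε : ℚ), 0 < ε ∧ ∑ i, (ℓ i : ℝ) * w i < 0 ∧
    (∀ μ, Semiample N δ' μ → 0 ≤ ∑ i, ℓ i * μ i) ∧
    (∀ μ, Semiample N δ'' μ → ∑ i, ℓ i * μ i ≤ 0) ∧ ∑ i, ℓ i * L i = 0 ∧
    ∀ μ : Fin p → ℚ, (∀ i, |μ i - L i| ≤ ε) → ∑ i, ℓ i * μ i = 0 →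
      Semiample N δ' μ ∧ Semiample N δ'' μ

end

end Pool.Agent.H73.TF
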