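import Pool.Agent.H73.TF.Hyp

/-!
Hypersurfaces in products of projective spaces: the reflections and termination.
-/

set_option autoImplicit false

open FF Pool.Agent.W602.GT Pool.Agent.W603.LV Pool.Agent.Y172

namespace Pool.Agent.H73.TF

section

variable {K : Type} [Field K] [Algebra ℂ K] {r N M : ℕ} {n : Fin r → ℕ}
variable {d : Fin r → ℕ} {x : ∀ i, Fin (n i + 1) → K} {e : Fin (M + 1) ≃ (∀ i, Fin (n i + 1))}
  {A B C : Fin r → MvPolynomial (Σ i : Fin r, Fin (n i + 1)) ℂ}

theorem sec_iff {ν : Fin r → ℤ} {f : K} : IsSection N (dl x) ν f ↔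
    ∀ P, Divisorial N P → f = 0 ∨ ∑ i, ν i * minimalOrder (x i) P ≤ P.ord f := by
  unfold IsSection dl
  refine forall₂_congr fun P _ => or_congr Iff.rfl ?_
  have e1 : - ∑ i, (ν i : ℚ) * -(minimalOrder (x i) P : ℚ) =
      ((∑ i, ν i * minimalOrder (x i) P : ℤ) : ℚ) := by
    push_cast
    rw [← Finset.sum_neg_distrib]
    exact Finset.sum_congr rfl fun i _ => by ring
  rw [e1]
  exact_mod_cast Iff.rfl

theorem two_points {m : ℕ} (hm : m = 1) (k : Fin (m + 1)) : k = 0 ∨ k = Fin.last m := by
  have := k.2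
  rcases Nat.eq_zero_or_pos (k : ℕ) with h | h
  · left; exact Fin.ext h
  · right; refine Fin.ext ?_; rw [Fin.val_last]; omega

variable (h : Hyp N d x e A B C)
include h

/-- effective combinations and fibrations -/
theorem Hyp.nonneg_of_trans {T : Finset (Fin r)} {i : Fin r} {k : Fin (n i + 1)}
    (ht : Transcendental (FT x T) (x i k)) {ν : Fin r → ℤ} (hν : ∀ l ∈ T, l ≠ i → ν l = 0)
    (hi : i ∈ T) {f : K} (hf0 : f ≠ 0) (hf : IsSection N (dl x) ν f) : 0 ≤ ν i := by
  by_contra hneg
  push Not at hneg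
  have hess := h.ess
  refine no_section h.hdim (FT x T) ht hf0 fun Q hQ htriv => ?_
  have h1 := (sec_iff.1 hf Q hQ).resolve_left hf0
  have h2 : ∑ l, ν l * minimalOrder (x l) Q = ν i * minimalOrder (x i) Q := by
    refine Finset.sum_eq_single i (fun l _ hl => ?_) fun hi' => absurd (Finset.mem_univ i) hi'
    by_cases hlT : l ∈ T
    · rw [hν l hlT hl, zero_mul]
    · have h3 : minimalOrder (x l) Q = 0 := by
        obtain ⟨k', hk0, hk⟩ := exists_mo (h.hx0 l) Q
        rw [← hk]
        exact htriv _ (mem_FT hlT k') hk0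
      rw [h3, mul_zero]
  rw [h2] at h1
  have h3 := mo_nonpos (h.hx0 i) Q
  refine ⟨by nlinarith, fun ho => ?_⟩
  have h4 := mo_le (x i) Q k
  nlinarith

/-- the sum of the dimensions of the factors outside two factors -/
theorem Hyp.sum_compl {i j : Fin r} (hij : i ≠ j) :
    ∑ l ∈ ({i, j} : Finset (Fin r))ᶜ, n l + (n i + n j) = N + 1 := by
  rw [h.hN, ← Finset.sum_compl_add_sum ({i, j} : Finset (Fin r)), Finset.sum_pair hij]

theorem Hyp.sum_compl1 (i : Fin r) :
    ∑ l ∈ ({i} : Finset (Fin r))ᶜ, n l + n i = N + 1 := by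
  rw [h.hN, ← Finset.sum_compl_add_sum ({i} : Finset (Fin r)), Finset.sum_singleton]

/-- the root is algebraic if the coefficients are -/
theorem Hyp.root_mem {F : IntermediateField ℂ K} {j : Fin r} (hj : n j = 1) (hdj : d j = 2)
    (hall : ∀ l, l ≠ j → d l ≠ 0 → ∀ k, x l k ∈ acl F) (k : Fin (n j + 1)) : x j k ∈ acl F := by
  rcases two_points hj k with rfl | rfl
  · rw [h.hx0]
    exact one_mem _
  · have key : ∀ {G : MvPolynomial (Σ i : Fin r, Fin (n i + 1)) ℂ},
        IsForm (Function.update d j 0) G → value x G ∈ acl F := by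
      intro G hG
      refine value_mem hG _ fun l hl k => ?_
      by_cases hlj : l = j
      · subst hlj
        rw [Function.update_self] at hl
        exact absurd rfl hl
      · rw [Function.update_of_ne hlj] at hl
        exact hall l hlj hl k
    exact acl_quad (key (h.hA j hj hdj)) (key (h.hB j hj hdj)) (key (h.hC j hj hdj))
      (h.A_ne hj hdj) (h.rel j hj hdj)

theorem Hyp.trans_pair {i j : Fin r} (hij : i ≠ j) (hj : n j = 1) (hdj : d j = 2) :
    ∃ k, Transcendental (FT x {i, j}) (x i k) := by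
  by_contra hcon
  push Not at hcon
  have h0 : ∀ k, x i k ∈ acl (FT x {i, j}) := fun k => mem_acl.2 (by
    simpa [Transcendental] using hcon k)
  have h1 : ∀ l ∈ ({i, j} : Finset (Fin r)), ∀ k, x l k ∈ acl (FT x {i, j}) := by
    intro l hl k
    rw [Finset.mem_insert, Finset.mem_singleton] at hl
    rcases hl with rfl | rfl
    · exact h0 k
    · refine h.root_mem hj hdj (fun m hm _ k => ?_) k
      by_cases hmi : m = i
      · subst hmi
        exact h0 k
      · refine le_acl _ (mem_FT ?_ k)
        rw [Finset.mem_insert, Finset.mem_singleton]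
        tauto
  have h2 := count h.hx0 h.gen h.hdim _ h1
  have h3 := h.sum_compl hij
  have h4 := h.hn i
  omega

theorem Hyp.trans_one {i : Fin r} (hi : ¬ (n i = 1 ∧ d i = 2)) :
    ∃ k, Transcendental (FT x {i}) (x i k) := by
  by_contra hcon
  push Not at hcon
  have h0 : ∀ k, IsAlgebraic (FT x {i}) (x i k) := fun k => by
    simpa [Transcendental] using hcon k
  by_cases hni : n i = 1
  · have hdi : d i = 0 := by
      rcases h.hd i hni with h1 | h1
      · exact h1
      · exact absurd ⟨hni, h1⟩ hi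
    obtain ⟨j, hj, hdj⟩ := h.ne
    have hij : i ≠ j := by
      rintro rfl
      omega
    have hjm : ∀ k, x j k ∈ acl (FT x {i, j}) := by
      refine h.root_mem hj hdj fun m hm hdm k => le_acl _ (mem_FT ?_ k)
      rw [Finset.mem_insert, Finset.mem_singleton]
      rintro (rfl | rfl)
      · exact hdm hdi
      · exact hm rfl
    have hle : FT x {i} ≤ acl (FT x {i, j}) := by
      unfold FT
      rw [IntermediateField.adjoin_le_iff]
      rintro _ ⟨l, hl, k, rfl⟩
      by_cases hlj : l = j
      · subst hlj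
        exact hjm k
      · refine le_acl _ (mem_FT ?_ k)
        rw [Finset.mem_singleton] at hl
        rw [Finset.mem_insert, Finset.mem_singleton]
        tauto
    have h1 : ∀ l ∈ ({i, j} : Finset (Fin r)), ∀ k, x l k ∈ acl (FT x {i, j}) := by
      intro l hl k
      rw [Finset.mem_insert, Finset.mem_singleton] at hl
      rcases hl with rfl | rfl
      · exact acl_trans hle (h0 k)
      · exact hjm k
    have h2 := count h.hx0 h.gen h.hdim _ h1
    have h3 := h.sum_compl hij
    omega
  · have h2 := count h.hx0 h.gen h.hdim {i} (fun l hl k => by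
      rw [Finset.mem_singleton] at hl
      subst hl
      exact mem_acl.2 (h0 k))
    have h3 := h.sum_compl1 i
    have h4 := h.hn i
    omega

/-- the reflection acts on sections -/
theorem Hyp.refl_sec {j : Fin r} (hj : n j = 1) (hdj : d j = 2) {ν : Fin r → ℤ} {f : K}
    (hf : IsSection N (dl x) ν f) :
    IsSection N (dl x) (rf (al d) j ν) (value x (A j) ^ (ν j) * h.sg j f) := by
  rw [sec_iff]
  by_cases hf0 : f = 0
  · intro P _
    left
    rw [hf0, map_zero, mul_zero]
  have hA0 := h.A_ne hj hdj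
  have hσf : h.sg j f ≠ 0 := by rwa [Ne, map_eq_zero]
  have hz0 : value x (A j) ^ (ν j) ≠ 0 := zpow_ne_zero _ hA0
  have hself : al d j j = -2 := by unfold al; rw [if_pos rfl]
  intro Q _
  right
  refine hartogs h.hX h.hx0 (mul_ne_zero hz0 hσf) (fun P hP => ?_) Q
  have hPd := hP.divisorial h.hX h.hdim
  have hdf : h.df j P = 0 := by
    have h1 := h.df_nonneg hj hdj P
    have h2 := (h.df_pos_iff hj hdj P).not.2 (h.cod j hj hdj P hP)
    omega
  have h1 := (hf _ (pl_div (h.sg j) hPd)).resolve_left hf0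
  have h2 := RR_sum (α := al d) (σ := h.sg) (z := fun j => value x (A j)) j (dl x) P
    (rf (al d) j (fun i => (ν i : ℚ)))
  rw [rf_rf hself, rf_self hself] at h2
  have h3 : ∀ i, RR (al d) h.sg (fun j => value x (A j)) j (dl x) i P = dl x i P := by
    intro i
    by_cases hi : i = j
    · subst hi
      rw [h.RR_self hj hdj, hdf]
      simp
    · exact h.RR_ne hj hdj P hi
  rw [Finset.sum_congr rfl fun i _ => by rw [h3 i]] at h2
  rw [P.ord_mul hz0 hσf, P.ord_zpow]
  rw [pl_ord] at h1
  have h4 : ((∑ i, rf (al d) j ν i * minimalOrder (x i) P : ℤ) : ℚ) =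
      - ∑ i, rf (al d) j (fun i => (ν i : ℚ)) i * dl x i P := by
    push_cast
    rw [← Finset.sum_neg_distrib]
    refine Finset.sum_congr rfl fun i _ => ?_
    rw [rf_cast]
    unfold dl
    ring
  have h5 : ((∑ i, rf (al d) j ν i * minimalOrder (x i) P : ℤ) : ℚ) ≤
      ((ν j * P.ord (value x (A j)) + P.ord (h.sg j f) : ℤ) : ℚ) := by
    rw [h4, h2]
    push_cast
    linarith
  exact_mod_cast h5

theorem Hyp.pair {j i : Fin r} (hij : i ≠ j) (hj : n j = 1) (hdj : d j = 2) {μ : Fin r → ℤ}
    {f : K} (hf0 : f ≠ 0) (hf : IsSection N (dl x) μ f) : 0 ≤ 2 * μ i + d i * μ j := by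
  obtain ⟨k, hk⟩ := h.trans_pair hij hj hdj
  have hself : al d j j = -2 := by unfold al; rw [if_pos rfl]
  have hσf : h.sg j f ≠ 0 := by rwa [Ne, map_eq_zero]
  have h1 := hf.mul (h.refl_sec hj hdj hf)
  have h2 := h.nonneg_of_trans hk (ν := μ + rf (al d) j μ) (fun l hl hli => ?_)
    (Finset.mem_insert_self _ _)
    (mul_ne_zero hf0 (mul_ne_zero (zpow_ne_zero _ (h.A_ne hj hdj)) hσf)) h1
  · rw [Pi.add_apply] at h2
    unfold rf al at h2
    rw [if_neg hij] at h2
    push_cast at h2
    linarith
  · rw [Finset.mem_insert, Finset.mem_singleton] at hl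
    rcases hl with rfl | rfl
    · exact absurd rfl hli
    · rw [Pi.add_apply, rf_self hself]
      ring

omit h in
/-- the weights of the degree -/
def th (n d : Fin r → ℕ) : Fin r → ℤ := fun i => if n i = 1 ∧ d i = 2 then 1 else 3

/-- **The hypersurface has a simplicial nef cone with reflecting facets.** -/
theorem Hyp.refl : Refl N (dl x) {j | n j = 1 ∧ d j = 2} (al d) h.sg (fun j => value x (A j))
    (th n d) where
  ex := by
    obtain ⟨j, hj, hdj⟩ := h.ne
    obtain ⟨P, hP, -⟩ := h.flop j hj hdj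
    exact ⟨P, hP⟩
  sa i := by
    refine ⟨1, le_rfl, Pi.single i 1, fun k => ?_, fun P _ => ?_⟩
    · by_cases hk : k = i
      · rw [hk]; simp
      · simp [Pi.single_eq_of_ne hk]
    · obtain ⟨k, hk0, hk⟩ := exists_mo (h.hx0 i) P
      have e1 : ∀ Q : Place ℂ K, ∑ l, (Pi.single i 1 : Fin r → ℤ) l * minimalOrder (x l) Q =
          minimalOrder (x i) Q := by
        intro Q
        rw [Finset.sum_eq_single i]
        · simp
        · intro l _ hl
          rw [Pi.single_eq_of_ne hl, zero_mul]
        · intro hi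
          exact absurd (Finset.mem_univ i) hi
      refine ⟨x i k, hk0, sec_iff.2 fun Q _ => Or.inr ?_, ?_⟩
      · rw [e1]
        exact mo_le (x i) Q k
      · rw [hk]
        unfold dl
        have e2 : - ∑ l, ((Pi.single i 1 : Fin r → ℤ) l : ℚ) * -(minimalOrder (x l) P : ℚ) =
            ((∑ l, (Pi.single i 1 : Fin r → ℤ) l * minimalOrder (x l) P : ℤ) : ℚ) := by
          push_cast
          rw [← Finset.sum_neg_distrib]
          exact Finset.sum_congr rfl fun i _ => by ring
        rw [e2, e1]
  fib j hj μ f hf0 hf := by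
    obtain ⟨k, hk⟩ := h.trans_one hj
    refine h.nonneg_of_trans hk (fun l hl hli => ?_) (Finset.mem_singleton_self j) hf0 hf
    exact absurd (Finset.mem_singleton.1 hl) hli
  self j _ := by unfold al; rw [if_pos rfl]
  z0 j hj := h.A_ne hj.1 hj.2
  inv j hj := (h.sg_spec hj.1 hj.2).1
  σz j hj := (h.sg_spec hj.1 hj.2).2.1 _ (h.coef_mem hj.1 hj.2).1
  refl j hj μ f hf := h.refl_sec hj.1 hj.2 hf
  flop j hj := by
    obtain ⟨P, hP, hv⟩ := h.flop j hj.1 hj.2
    refine ⟨P, hP, ?_⟩
    rw [h.RR_self hj.1 hj.2]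
    have h1 := (h.df_pos_iff hj.1 hj.2 P).2 hv
    have h2 : (0 : ℚ) < h.df j P := by exact_mod_cast h1
    linarith
  deg μ f hf0 hf := by
    have hfib : ∀ j, ¬ (n j = 1 ∧ d j = 2) → 0 ≤ μ j := by
      intro j hj
      obtain ⟨k, hk⟩ := h.trans_one hj
      refine h.nonneg_of_trans hk (fun l hl hli => ?_) (Finset.mem_singleton_self j) hf0 hf
      exact absurd (Finset.mem_singleton.1 hl) hli
    by_cases hall : ∀ j, 0 ≤ μ j
    · refine Finset.sum_nonneg fun i _ => mul_nonneg ?_ (hall i)
      unfold th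
      split_ifs <;> norm_num
    push Not at hall
    obtain ⟨j, hneg⟩ := hall
    have hj : n j = 1 ∧ d j = 2 := by
      by_contra hj
      exact absurd (hfib j hj) (not_le.2 hneg)
    have hp : ∀ i, i ≠ j → 0 ≤ 2 * μ i + d i * μ j := fun i hi => h.pair hi hj.1 hj.2 hf0 hf
    -- the terms
    have hJ : ∀ i, i ≠ j → (n i = 1 ∧ d i = 2) → -μ j ≤ th n d i * μ i := by
      intro i hi hiJ
      have h1 := hp i hi
      rw [hiJ.2] at h1
      unfold th
      rw [if_pos hiJ]
      push_cast at h1
      linarith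
    have h0 : ∀ i, i ≠ j → 0 ≤ th n d i * μ i := by
      intro i hi
      by_cases hiJ : n i = 1 ∧ d i = 2
      · have := hJ i hi hiJ
        omega
      · unfold th
        rw [if_neg hiJ]
        have := hfib i hiJ
        omega
    have hsum : ∑ i, th n d i * μ i = th n d j * μ j + ∑ i ∈ Finset.univ.erase j, th n d i * μ i :=
      (Finset.add_sum_erase _ _ (Finset.mem_univ j)).symm
    have hthj : th n d j = 1 := by unfold th; rw [if_pos hj]
    rw [hsum, hthj]
    have hone : ∃ i ∈ Finset.univ.erase j, -μ j ≤ th n d i * μ i := by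
      rcases h.big with ⟨i, hi, hdi⟩ | hcard
      · have hij : i ≠ j := by
          rintro rfl
          exact hi hj
        refine ⟨i, Finset.mem_erase.2 ⟨hij, Finset.mem_univ i⟩, ?_⟩
        have h1 := hp i hij
        unfold th
        rw [if_neg hi]
        have h2 : (1 : ℤ) ≤ d i := by exact_mod_cast hdi
        have h3 : (d i : ℤ) * μ j ≤ μ j := by nlinarith
        omega
      · obtain ⟨i, hi, hij⟩ := Finset.exists_mem_ne (s := Finset.univ.filter
          fun i : Fin r => n i = 1 ∧ d i = 2) (by omega) j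
        exact ⟨i, Finset.mem_erase.2 ⟨hij, Finset.mem_univ i⟩, hJ i hij (Finset.mem_filter.1 hi).2⟩
    obtain ⟨i, hi, h1⟩ := hone
    have h2 := Finset.single_le_sum (f := fun i => th n d i * μ i)
      (fun i hi => h0 i (Finset.ne_of_mem_erase hi)) hi
    have h3 : th n d i * μ i ≤ ∑ i ∈ Finset.univ.erase j, th n d i * μ i := h2
    linarith
  pos j hj := by
    have hsum : ∑ i, th n d i * al d j i =
        th n d j * al d j j + ∑ i ∈ Finset.univ.erase j, th n d i * al d j i :=
      (Finset.add_sum_erase _ _ (Finset.mem_univ j)).symm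
    have hj' : n j = 1 ∧ d j = 2 := hj
    have hthj : th n d j = 1 := by unfold th; rw [if_pos hj']
    have halj : al d j j = -2 := by unfold al; rw [if_pos rfl]
    rw [hsum, hthj, halj]
    have h0 : ∀ i ∈ Finset.univ.erase j, 0 ≤ th n d i * al d j i := by
      intro i hi
      have hij := Finset.ne_of_mem_erase hi
      unfold th al
      rw [if_neg hij]
      split_ifs <;> positivity
    rcases h.big with ⟨i, hi, hdi⟩ | hcard
    · have hij : i ≠ j := by
        rintro rfl
        exact hi hj
      have h2 := Finset.single_le_sum h0 (Finset.mem_erase.2 ⟨hij, Finset.mem_univ i⟩)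
      have h3 : 3 ≤ th n d i * al d j i := by
        unfold th al
        rw [if_neg hij, if_neg hi]
        have : (1 : ℤ) ≤ d i := by exact_mod_cast hdi
        linarith
      linarith
    · set S := (Finset.univ.filter fun i : Fin r => n i = 1 ∧ d i = 2).erase j with hS
      have hSc : 2 ≤ S.card := by
        rw [hS, Finset.card_erase_of_mem (Finset.mem_filter.2 ⟨Finset.mem_univ j, hj'⟩)]
        omega
      have hsub : S ⊆ Finset.univ.erase j := Finset.erase_subset_erase _ (Finset.filter_subset _ _)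
      have h2 : ∑ i ∈ S, th n d i * al d j i ≤ ∑ i ∈ Finset.univ.erase j, th n d i * al d j i :=
        Finset.sum_le_sum_of_subset_of_nonneg hsub fun i hi _ => h0 i hi
      have h3 : ∑ i ∈ S, th n d i * al d j i = S.card * 2 := by
        rw [Finset.sum_congr rfl (g := fun _ => (2 : ℤ)), Finset.sum_const, nsmul_eq_mul]
        intro i hi
        have hij := Finset.ne_of_mem_erase hi
        have hiJ := (Finset.mem_filter.1 (Finset.mem_of_mem_erase hi)).2
        unfold th al
        rw [if_neg hij, if_pos hiJ, hiJ.2]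
        norm_num
      have h4 : (2 : ℤ) ≤ S.card := by exact_mod_cast hSc
      linarith

end

end Pool.Agent.H73.TF
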