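import Pool.Agent.H73.TF.Ref

/-!
The flips are the reflections.
-/

set_option autoImplicit false

open FF Pool.Agent.W602.GT

namespace Pool.Agent.H73.TF

section

variable {K : Type} [Field K] [Algebra ℂ K] {p N : ℕ}
variable {δ δ' δ'' : Fin p → Place ℂ K → ℚ} {J : Set (Fin p)} {α : Fin p → Fin p → ℤ}
  {σ : Fin p → K ≃ₐ[ℂ] K} {z : Fin p → K} {θ : Fin p → ℤ}

/-- `lam` is ample -/
def AmpleAt (N : ℕ) (δ' : Fin p → Place ℂ K → ℚ) (lam : Fin p → ℚ) : Prop :=
  ∃ ε : ℚ, 0 < ε ∧ ∀ μ : Fin p → ℚ, (∀ i, |μ i - lam i| ≤ ε) → Semiample N δ' μ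

theorem Eqv.ample {lam : Fin p → ℚ} (h : Eqv N δ' δ'') (ha : AmpleAt N δ' lam) :
    AmpleAt N δ'' lam := by
  obtain ⟨ε, hε, ha⟩ := ha
  exact ⟨ε, hε, fun μ hμ => h.semiample (ha μ hμ)⟩

theorem AmpleAt.semiample {lam : Fin p → ℚ} (ha : AmpleAt N δ' lam) : Semiample N δ' lam := by
  obtain ⟨ε, hε, ha⟩ := ha
  exact ha lam fun i => by rw [sub_self, abs_zero]; exact hε.le

/-- two families which agree on enough combinations agree -/
theorem eqv_of_line {L : Fin p → ℚ} {t : ℚ} (ht : t ≠ 0)
    (h0 : ∀ P, Divisorial N P → ∑ i, L i * δ' i P = ∑ i, L i * δ'' i P)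
    (h1 : ∀ i, ∀ P, Divisorial N P → ∑ k, (L + t • Pi.single i (1 : ℚ) : Fin p → ℚ) k * δ' k P =
      ∑ k, (L + t • Pi.single i (1 : ℚ) : Fin p → ℚ) k * δ'' k P) : Eqv N δ' δ'' := by
  intro P hP i
  have e : ∀ ε : Fin p → Place ℂ K → ℚ, ∑ k, (L + t • Pi.single i (1 : ℚ) : Fin p → ℚ) k * ε k P =
      ∑ k, L k * ε k P + t * ε i P := by
    intro ε
    have e1 : ∀ k, (L + t • Pi.single i (1 : ℚ) : Fin p → ℚ) k * ε k P =
        L k * ε k P + if k = i then t * ε i P else 0 := by
      intro k
      by_cases hk : k = i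
      · rw [if_pos hk, hk]
        simp
        ring
      · rw [if_neg hk]
        simp [Pi.single_eq_of_ne hk]
    rw [Finset.sum_congr rfl fun k _ => e1 k, Finset.sum_add_distrib,
      Finset.sum_ite_eq' Finset.univ i, if_pos (Finset.mem_univ i)]
  have h2 := h1 i P hP
  rw [e, e, h0 P hP] at h2
  have h3 : t * δ' i P = t * δ'' i P := by linarith
  exact mul_left_cancel₀ ht h3

variable (h : Refl N δ J α σ z θ)
include h

/-- **The nef cone.** Semiample combinations on `X` are nonnegative. -/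
theorem Refl.nonneg {μ : Fin p → ℚ} (hμ : Semiample N δ μ) (j : Fin p) : 0 ≤ μ j := by
  by_cases hj : j ∈ J
  · by_contra hneg
    push Not at hneg
    obtain ⟨P, hP, hlt⟩ := h.flop j hj
    have hs : Same N δ (RR α σ z j δ) := h.same_RR hj fun _ _ => Iff.rfl
    have h1 := hμ.le hs hP
    have h2 : ∀ i, i ≠ j → RR α σ z j δ i P = δ i P := by
      intro i hi
      have h3 : Semiample N (RR α σ z j δ) (Pi.single i 1) := by
        have h4 := h.semiample_RR hj (h.sa i)
        have h5 : rf α j (Pi.single i (1 : ℚ) : Fin p → ℚ) = Pi.single i 1 := by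
          funext k
          unfold rf
          rw [Pi.single_eq_of_ne (Ne.symm hi), mul_zero, add_zero]
        rwa [h5] at h4
      have h4 := (h.sa i).eq h3 hs hP
      have e : ∀ ε : Fin p → Place ℂ K → ℚ, ∑ k, (Pi.single i (1 : ℚ) : Fin p → ℚ) k * ε k P =
          ε i P := by
        intro ε
        rw [Finset.sum_eq_single i]
        · simp
        · intro k _ hk
          rw [Pi.single_eq_of_ne hk, zero_mul]
        · intro hi
          exact absurd (Finset.mem_univ i) hi
      rw [e, e] at h4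
      exact h4.symm
    have h3 : ∑ i, μ i * RR α σ z j δ i P - ∑ i, μ i * δ i P =
        μ j * (RR α σ z j δ j P - δ j P) := by
      rw [← Finset.sum_sub_distrib, Finset.sum_eq_single j]
      · ring
      · intro i _ hi
        rw [h2 i hi, sub_self]
      · intro hj'
        exact absurd (Finset.mem_univ j) hj'
    nlinarith
  · obtain ⟨k, hk, ν, hν, f, hf0, hf⟩ := hμ.eff h.ex
    have h1 := h.fib j hj ν f hf0 hf
    have h2 : (0 : ℚ) ≤ k * μ j := by
      rw [hν j]
      exact_mod_cast h1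
    have hk' : (0 : ℚ) < k := by exact_mod_cast hk
    by_contra hneg
    push Not at hneg
    nlinarith

/-- transforms of ample combinations -/
theorem Refl.ample_RR {j : Fin p} (hj : j ∈ J) {lam : Fin p → ℚ} (ha : AmpleAt N δ' lam) :
    AmpleAt N (RR α σ z j δ') (rf α j lam) := by
  obtain ⟨ε, hε, ha⟩ := ha
  obtain ⟨M, hM0, hM⟩ : ∃ M : ℚ, 1 ≤ M ∧ ∀ i, |(α j i : ℚ)| ≤ M := by
    refine ⟨1 + ∑ i, |(α j i : ℚ)|, ?_, fun i => ?_⟩
    · have : 0 ≤ ∑ i, |(α j i : ℚ)| := Finset.sum_nonneg fun i _ => abs_nonneg _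
      linarith
    · have := Finset.single_le_sum (f := fun i => |(α j i : ℚ)|) (fun i _ => abs_nonneg _)
        (Finset.mem_univ i)
      linarith
  refine ⟨ε / (1 + M), by positivity, fun μ hμ => ?_⟩
  have h1 : Semiample N δ' (rf α j μ) := by
    refine ha _ fun i => ?_
    have e : rf α j μ i - lam i = (μ i - rf α j lam i) + α j i * (μ j - rf α j lam j) := by
      have e1 : lam = rf α j (rf α j lam) := (rf_rf (h.self j hj) lam).symm
      conv_lhs => rw [e1]
      unfold rf
      ring
    rw [e]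
    have h2 := hμ i
    have h3 := hμ j
    have h4 := hM i
    calc |(μ i - rf α j lam i) + α j i * (μ j - rf α j lam j)|
        ≤ |μ i - rf α j lam i| + |α j i * (μ j - rf α j lam j)| := abs_add_le _ _
      _ = |μ i - rf α j lam i| + |(α j i : ℚ)| * |μ j - rf α j lam j| := by rw [abs_mul]
      _ ≤ ε / (1 + M) + M * (ε / (1 + M)) := by
        refine add_le_add h2 (mul_le_mul h4 h3 (abs_nonneg _) (by linarith))
      _ = ε := by field_simp
  have h2 := h.semiample_RR hj h1
  rwa [rf_rf (h.self j hj)] at h2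

/-- a small modification with an ample nonnegative combination is `X` -/
theorem Refl.eqv_of_nonneg (hs : Same N δ δ') {lam : Fin p → ℚ} (ha : AmpleAt N δ' lam)
    (h0 : ∀ i, 0 ≤ lam i) : Eqv N δ' δ := by
  obtain ⟨ε, hε, ha⟩ := ha
  have h1 : ∀ μ : Fin p → ℚ, (∀ i, |μ i - lam i| ≤ ε) → (∀ i, 0 ≤ μ i) → ∀ P, Divisorial N P →
      ∑ i, μ i * δ' i P = ∑ i, μ i * δ i P := by
    intro μ hμ hμ0 P hP
    exact (ha μ hμ).eq (semiample_of_basis h.sa hμ0) hs.symm hP
  refine eqv_of_line (L := lam) (t := ε) hε.ne' (fun P hP => h1 lam (fun i => by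
    rw [sub_self, abs_zero]; exact hε.le) h0 P hP) fun i P hP => h1 _ (fun k => ?_) (fun k => ?_) P hP
  · by_cases hk : k = i
    · rw [hk]
      simp [abs_of_pos hε]
    · simp [Pi.single_eq_of_ne hk, hε.le]
  · by_cases hk : k = i
    · rw [hk]
      have := h0 i
      simp
      linarith
    · simp [Pi.single_eq_of_ne hk, h0 k]

/-- **The flips of `X`.** -/
theorem Refl.flip {D : Fin p → ℝ} (hs : Same N δ δ'') {lam : Fin p → ℚ}
    (ha : AmpleAt N δ'' lam) (hf : IsFlip N D δ δ'') :
    ∃ j ∈ J, D j < 0 ∧ Eqv N δ'' (RR α σ z j δ) := by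
  obtain ⟨ℓ, L, ε, hε, hD, hp, hm, hL, hLL⟩ := hf
  have hℓ0 : ∀ i, 0 ≤ ℓ i := by
    intro i
    have h1 := hp _ (h.sa i)
    rwa [Finset.sum_eq_single i, Pi.single_eq_same, mul_one] at h1
    · intro k _ hk
      rw [Pi.single_eq_of_ne hk, mul_zero]
    · intro hi
      exact absurd (Finset.mem_univ i) hi
  obtain ⟨j, hj0⟩ : ∃ j, 0 < ℓ j := by
    by_contra hcon
    push Not at hcon
    have : ∑ i, (ℓ i : ℝ) * D i = 0 := Finset.sum_eq_zero fun i _ => by
      rw [le_antisymm (hcon i) (hℓ0 i)]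
      simp
    linarith
  have hLs : Semiample N δ L := (hLL L (fun i => by rw [sub_self, abs_zero]; exact hε.le) hL).1
  have hL0 : ∀ i, 0 ≤ L i := h.nonneg hLs
  have hprod : ∀ i, ℓ i * L i = 0 := by
    intro i
    exact (Finset.sum_eq_zero_iff_of_nonneg fun i _ => mul_nonneg (hℓ0 i) (hL0 i)).1 hL i
      (Finset.mem_univ i)
  have hLj : L j = 0 := by
    rcases mul_eq_zero.1 (hprod j) with h1 | h1
    · exact absurd h1 hj0.ne'
    · exact h1
  -- perturbations of `L`
  have hpert : ∀ (i k : Fin p) (s t : ℚ), i ≠ k → |s| ≤ ε → |t| ≤ ε →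
      ℓ i * s + ℓ k * t = 0 → 0 ≤ L i + s ∧ Semiample N δ (L + (Pi.single i s + Pi.single k t)) ∧
        Semiample N δ'' (L + (Pi.single i s + Pi.single k t)) := by
    intro i k s t hik hs' ht' h0
    have h1 := hLL (L + (Pi.single i s + Pi.single k t)) (fun m => ?_) ?_
    · have h2 := h.nonneg h1.1 i
      rw [Pi.add_apply, Pi.add_apply, Pi.single_eq_same, Pi.single_eq_of_ne hik, add_zero] at h2
      exact ⟨h2, h1⟩
    · rw [Pi.add_apply, add_sub_cancel_left, Pi.add_apply]
      by_cases hm1 : m = i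
      · rw [hm1, Pi.single_eq_same, Pi.single_eq_of_ne hik, add_zero]
        exact hs'
      · rw [Pi.single_eq_of_ne hm1, zero_add]
        by_cases hm2 : m = k
        · rw [hm2, Pi.single_eq_same]
          exact ht'
        · rw [Pi.single_eq_of_ne hm2, abs_zero]
          exact hε.le
    · have e : ∀ m, ℓ m * (L + (Pi.single i s + Pi.single k t) : Fin p → ℚ) m = ℓ m * L m +
          ((if m = i then ℓ i * s else 0) + if m = k then ℓ k * t else 0) := by
        intro m
        rw [Pi.add_apply, Pi.add_apply, Pi.single_apply, Pi.single_apply]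
        by_cases hm1 : m = i
        · by_cases hm2 : m = k
          · exact absurd (hm1.symm.trans hm2) hik
          · rw [if_pos hm1, if_neg hm2, if_pos hm1, if_neg hm2, hm1]; ring
        · by_cases hm2 : m = k
          · rw [if_neg hm1, if_pos hm2, if_neg hm1, if_pos hm2, hm2]; ring
          · rw [if_neg hm1, if_neg hm2, if_neg hm1, if_neg hm2]; ring
      rw [Finset.sum_congr rfl fun m _ => e m, Finset.sum_add_distrib, Finset.sum_add_distrib, hL,
        Finset.sum_ite_eq' Finset.univ i, Finset.sum_ite_eq' Finset.univ k,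
        if_pos (Finset.mem_univ i), if_pos (Finset.mem_univ k), h0, add_zero]
  have hℓi : ∀ i, i ≠ j → ℓ i = 0 := by
    intro i hi
    by_contra hne
    have hpos : 0 < ℓ i := lt_of_le_of_ne (hℓ0 i) (Ne.symm hne)
    have hLi : L i = 0 := by
      rcases mul_eq_zero.1 (hprod i) with h1 | h1
      · exact absurd h1 hne
      · exact h1
    obtain ⟨c, hc0, hc1, hc2⟩ : ∃ c : ℚ, 0 < c ∧ c * ℓ i ≤ ε ∧ c * ℓ j ≤ ε := by
      refine ⟨min (ε / ℓ i) (ε / ℓ j), lt_min (by positivity) (by positivity), ?_, ?_⟩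
      · calc min (ε / ℓ i) (ε / ℓ j) * ℓ i ≤ ε / ℓ i * ℓ i :=
            mul_le_mul_of_nonneg_right (min_le_left _ _) hpos.le
          _ = ε := by field_simp
      · calc min (ε / ℓ i) (ε / ℓ j) * ℓ j ≤ ε / ℓ j * ℓ j :=
            mul_le_mul_of_nonneg_right (min_le_right _ _) hj0.le
          _ = ε := by field_simp
    have h1 := (hpert i j (-(c * ℓ j)) (c * ℓ i) hi (by
      rw [abs_neg, abs_of_pos (by positivity)]; exact hc2) (by
      rw [abs_of_pos (by positivity)]; exact hc1) (by ring)).1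
    rw [hLi] at h1
    have : 0 < c * ℓ j := by positivity
    linarith
  have hsum : ∀ μ : Fin p → ℚ, ∑ i, ℓ i * μ i = ℓ j * μ j := by
    intro μ
    rw [Finset.sum_eq_single j]
    · intro i _ hi
      rw [hℓi i hi, zero_mul]
    · intro hj'
      exact absurd (Finset.mem_univ j) hj'
  have hDj : D j < 0 := by
    rw [Finset.sum_eq_single j] at hD
    · have h1 : (0 : ℝ) < ℓ j := by exact_mod_cast hj0
      by_contra hcon
      push Not at hcon
      nlinarith
    · intro i _ hi
      rw [hℓi i hi]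
      simp
    · intro hj'
      exact absurd (Finset.mem_univ j) hj'
  -- the other coordinates of `L` are positive
  have hLi : ∀ i, i ≠ j → 0 < L i := by
    intro i hi
    have h1 := (hpert i j (-ε) 0 hi (by rw [abs_neg, abs_of_pos hε]) (by
      rw [abs_zero]; exact hε.le) (by rw [hℓi i hi]; ring)).1
    linarith
  -- an ample combination on `X''` with negative coordinate
  obtain ⟨ε', hε', ha⟩ := ha
  have ha0 : ∀ μ : Fin p → ℚ, (∀ i, |μ i - lam i| ≤ ε') → μ j ≤ 0 := by
    intro μ hμ
    have h1 := hm μ (ha μ hμ)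
    rw [hsum] at h1
    by_contra hcon
    push Not at hcon
    have := mul_pos hj0 hcon
    linarith
  have hlam : lam j < 0 := by
    have h1 := ha0 (lam + Pi.single j ε') fun i => by
      rw [Pi.add_apply, add_sub_cancel_left, Pi.single_apply]
      split_ifs
      · rw [abs_of_pos hε']
      · rw [abs_zero]
        exact hε'.le
    rw [Pi.add_apply, Pi.single_eq_same] at h1
    linarith
  have hsa : Semiample N δ'' lam := ha lam fun i => by rw [sub_self, abs_zero]; exact hε'.le
  have hjJ : j ∈ J := by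
    by_contra hjn
    obtain ⟨k, hk, ν, hν, f, hf0, hf⟩ := hsa.eff h.ex
    have h1 := h.fib j hjn ν f hf0 ((hs ν f).2 hf)
    have h2 : (0 : ℚ) ≤ k * lam j := by
      rw [hν j]
      exact_mod_cast h1
    have hk' : (0 : ℚ) < k := by exact_mod_cast hk
    nlinarith
  refine ⟨j, hjJ, hDj, ?_⟩
  have hsR : Same N δ (RR α σ z j δ) := h.same_RR hjJ fun _ _ => Iff.rfl
  have hss : Same N δ'' (RR α σ z j δ) := hs.symm.trans hsR
  have hRs : ∀ μ : Fin p → ℚ, (∀ i, 0 ≤ rf α j μ i) → Semiample N (RR α σ z j δ) μ := by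
    intro μ hμ
    have h1 := h.semiample_RR hjJ (semiample_of_basis h.sa hμ)
    rwa [rf_rf (h.self j hjJ)] at h1
  have hL'' : Semiample N δ'' L := (hLL L (fun i => by rw [sub_self, abs_zero]; exact hε.le) hL).2
  have hrfL : rf α j L = L := by
    funext i
    unfold rf
    rw [hLj, mul_zero, add_zero]
  have hLe : ∀ P, Divisorial N P → ∑ i, L i * δ'' i P = ∑ i, L i * RR α σ z j δ i P :=
    fun P hP => hL''.eq (hRs L (by rw [hrfL]; exact hL0)) hss hP
  have he : ∀ i, i ≠ j → ∀ P, Divisorial N P → δ'' i P = RR α σ z j δ i P := by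
    intro i hi P hP
    have h1 := (hpert i j ε 0 hi (by rw [abs_of_pos hε]) (by
      rw [abs_zero]; exact hε.le) (by rw [hℓi i hi]; ring)).2.2
    rw [Pi.single_zero, add_zero] at h1
    have h2 : Semiample N (RR α σ z j δ) (L + Pi.single i ε) := by
      refine hRs _ fun k => ?_
      have e1 : rf α j (L + Pi.single i ε) = L + Pi.single i ε := by
        funext m
        unfold rf
        rw [Pi.add_apply (i := j), hLj, Pi.single_eq_of_ne (Ne.symm hi), add_zero, mul_zero,
          add_zero]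
      rw [e1, Pi.add_apply, Pi.single_apply]
      have := hL0 k
      split_ifs <;> linarith
    have h3 := h1.eq h2 hss hP
    have e : ∀ κ : Fin p → Place ℂ K → ℚ, ∑ k, (L + Pi.single i ε : Fin p → ℚ) k * κ k P =
        ∑ k, L k * κ k P + ε * κ i P := by
      intro κ
      have e1 : ∀ k, (L + Pi.single i ε : Fin p → ℚ) k * κ k P = L k * κ k P +
          if k = i then ε * κ i P else 0 := by
        intro k
        rw [Pi.add_apply, Pi.single_apply]
        by_cases hk : k = i
        · rw [if_pos hk, if_pos hk, hk]; ring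
        · rw [if_neg hk, if_neg hk]; ring
      rw [Finset.sum_congr rfl fun k _ => e1 k, Finset.sum_add_distrib,
        Finset.sum_ite_eq' Finset.univ i, if_pos (Finset.mem_univ i)]
    rw [e, e, hLe P hP] at h3
    exact mul_left_cancel₀ hε.ne' (by linarith)
  -- the last coordinate
  obtain ⟨t, ht0, ht⟩ : ∃ t : ℚ, 0 < t ∧ ∀ i, i ≠ j → 0 ≤ L i + t * (rf α j lam i) := by
    obtain ⟨t, ht0, ht⟩ : ∃ t : ℚ, 0 < t ∧ ∀ i ∈ Finset.univ.filter (fun i : Fin p => i ≠ j),
        0 ≤ L i + t * (rf α j lam i) := by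
      have key : ∀ s : Finset (Fin p), (∀ i ∈ s, i ≠ j) → ∃ t : ℚ, 0 < t ∧ ∀ t' : ℚ, 0 ≤ t' →
          t' ≤ t → ∀ i ∈ s, 0 ≤ L i + t' * (rf α j lam i) := by
        intro s
        induction s using Finset.induction_on with
        | empty => exact fun _ => ⟨1, one_pos, fun _ _ _ i hi => absurd hi (Finset.notMem_empty i)⟩
        | insert i s his ih =>
          intro hs'
          obtain ⟨t, ht0, ht⟩ := ih fun i hi => hs' i (Finset.mem_insert_of_mem hi)
          have hLi' := hLi i (hs' i (Finset.mem_insert_self i s))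
          have hb : 0 < 1 + |rf α j lam i| := by positivity
          refine ⟨min t (L i / (1 + |rf α j lam i|)), lt_min ht0 (by positivity),
            fun t' h0 h1 k hk => ?_⟩
          rcases Finset.mem_insert.1 hk with rfl | hk
          · have h2 : t' ≤ L k / (1 + |rf α j lam k|) := h1.trans (min_le_right _ _)
            rw [le_div_iff₀ hb] at h2
            have h3 := neg_abs_le (rf α j lam k)
            nlinarith
          · exact ht t' h0 (h1.trans (min_le_left _ _)) k hk
      obtain ⟨t, ht0, ht⟩ := key (Finset.univ.filter (fun i : Fin p => i ≠ j))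
        (fun i hi => (Finset.mem_filter.1 hi).2)
      exact ⟨t, ht0, ht t ht0.le le_rfl⟩
    exact ⟨t, ht0, fun i hi => ht i (Finset.mem_filter.2 ⟨Finset.mem_univ i, hi⟩)⟩
  have h1 : Semiample N δ'' (L + t • lam) := hL''.add (hsa.smul ht0.le)
  have h2 : Semiample N (RR α σ z j δ) (L + t • lam) := by
    refine hRs _ fun i => ?_
    rw [rf_add, rf_smul, hrfL, Pi.add_apply, Pi.smul_apply, smul_eq_mul]
    by_cases hi : i = j
    · rw [hi, rf_self (h.self j hjJ), hLj]
      nlinarith
    · exact ht i hi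
  intro P hP i
  by_cases hi : i = j
  · rw [hi]
    have h3 := h1.eq h2 hss hP
    have e : ∀ κ : Fin p → Place ℂ K → ℚ, ∑ k, (L + t • lam : Fin p → ℚ) k * κ k P =
        ∑ k, L k * κ k P + t * ∑ k, lam k * κ k P := by
      intro κ
      rw [Finset.mul_sum, ← Finset.sum_add_distrib]
      refine Finset.sum_congr rfl fun k _ => ?_
      rw [Pi.add_apply, Pi.smul_apply, smul_eq_mul]
      ring
    rw [e, e, hLe P hP] at h3
    have h4 : ∑ k, lam k * δ'' k P = ∑ k, lam k * RR α σ z j δ k P :=
      mul_left_cancel₀ ht0.ne' (by linarith)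
    have h5 : lam j * (δ'' j P - RR α σ z j δ j P) = 0 := by
      have h6 : ∑ k, lam k * (δ'' k P - RR α σ z j δ k P) = 0 := by
        have : ∑ k, lam k * (δ'' k P - RR α σ z j δ k P) =
            ∑ k, lam k * δ'' k P - ∑ k, lam k * RR α σ z j δ k P := by
          rw [← Finset.sum_sub_distrib]
          exact Finset.sum_congr rfl fun k _ => by ring
        rw [this, h4, sub_self]
      rwa [Finset.sum_eq_single j] at h6
      · intro k _ hk
        rw [he k hk P hP, sub_self, mul_zero]
      · intro hj'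
        exact absurd (Finset.mem_univ j) hj'
    rcases mul_eq_zero.1 h5 with h6 | h6
    · exact absurd h6 hlam.ne
    · linarith
  · exact he i hi P hP

end

end Pool.Agent.H73.TF
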