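import Pool.Agent.H73.TF.Defs

/-!
Hypersurfaces in products of projective spaces: definitions.
-/

set_option autoImplicit false

open FF Pool.Agent.W602.GT

namespace Pool.Agent.H73.TF

section

variable {r : ℕ} {n : Fin r → ℕ}

/-- The polynomial `G` in the homogeneous coordinates of all the projective spaces is homogeneous of
degree `g i` in the coordinates of the `i`-th space, for every `i`. -/
def IsForm (g : Fin r → ℕ) (G : MvPolynomial (Σ i : Fin r, Fin (n i + 1)) ℂ) : Prop :=
  ∀ i, MvPolynomial.IsWeightedHomogeneous
    (fun v : Σ i : Fin r, Fin (n i + 1) => if v.1 = i then 1 else 0) G (g i)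

variable {K : Type} [Field K] [Algebra ℂ K]

/-- The value of `G` at the point with the homogeneous coordinates `x i`. -/
noncomputable def value (x : ∀ i, Fin (n i + 1) → K)
    (G : MvPolynomial (Σ i : Fin r, Fin (n i + 1)) ℂ) : K :=
  MvPolynomial.aeval (fun v : Σ i : Fin r, Fin (n i + 1) => x v.1 v.2) G

/-- The minimal order at `P` of the homogeneous coordinates `y`. -/
noncomputable def minimalOrder {m : ℕ} (y : Fin (m + 1) → K) (P : Place ℂ K) : ℤ :=
  Finset.univ.inf' Finset.univ_nonempty fun k => P.ord (y k)

/-- The form `G` of the degrees `g i` vanishes at the centre of `P`: its order at `P` is positive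
after the homogeneous coordinates have been divided by those of minimal order. -/
def VanishesAt (x : ∀ i, Fin (n i + 1) → K) (g : Fin r → ℕ)
    (G : MvPolynomial (Σ i : Fin r, Fin (n i + 1)) ℂ) (P : Place ℂ K) : Prop :=
  value x G = 0 ∨ ∑ i, (g i : ℤ) * minimalOrder (x i) P < P.ord (value x G)

/-- The homogeneous coordinates of the point in the Segre embedding of the product, in some order
`e`. -/
noncomputable def segre {M : ℕ} (e : Fin (M + 1) ≃ (∀ i, Fin (n i + 1)))
    (x : ∀ i, Fin (n i + 1) → K) : Fin (M + 1) → K :=
  fun t => ∏ i, x i (e t i)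

end

end Pool.Agent.H73.TF
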