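import Pool.Agent.H73.TF.Flip

/-!
Termination.
-/

set_option autoImplicit false

open FF Pool.Agent.W602.GT

namespace Pool.Agent.H73.TF

section

variable {K : Type} [Field K] [Algebra ℂ K] {p N : ℕ}
variable {δ δ' δ'' : Fin p → Place ℂ K → ℚ} {J : Set (Fin p)} {α : Fin p → Fin p → ℤ}
  {σ : Fin p → K ≃ₐ[ℂ] K} {z : Fin p → K} {θ : Fin p → ℤ}

/-- the coordinates after a sequence of reflections, the first one is applied first -/
def co {A : Type} [CommRing A] (α : Fin p → Fin p → ℤ) : List (Fin p) → (Fin p → A) → Fin p → A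
  | [], μ => μ
  | j :: w, μ => co α w (rf α j μ)

/-- the model of a sequence of reflections -/
def mo (α : Fin p → Fin p → ℤ) (σ : Fin p → K ≃ₐ[ℂ] K) (z : Fin p → K)
    (δ : Fin p → Place ℂ K → ℚ) : List (Fin p) → Fin p → Place ℂ K → ℚ
  | [] => δ
  | j :: w => RR α σ z j (mo α σ z δ w)

theorem co_append {A : Type} [CommRing A] (w : List (Fin p)) (j : Fin p) (μ : Fin p → A) :
    co α (w ++ [j]) μ = rf α j (co α w μ) := by
  induction w generalizing μ with
  | nil => rfl
  | cons k w ih => exact ih (rf α k μ)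

theorem co_cast (w : List (Fin p)) (ν : Fin p → ℤ) :
    (fun i => ((co α w ν i : ℤ) : ℝ)) = co α w (fun i => (ν i : ℝ)) := by
  induction w generalizing ν with
  | nil => rfl
  | cons k w ih =>
    change (fun i => ((co α w (rf α k ν) i : ℤ) : ℝ)) = co α w (rf α k fun i => (ν i : ℝ))
    rw [ih]
    congr 1
    funext i
    exact rf_castR k ν i

theorem co_castQ (w : List (Fin p)) (ν : Fin p → ℤ) :
    (fun i => ((co α w ν i : ℤ) : ℚ)) = co α w (fun i => (ν i : ℚ)) := by
  induction w generalizing ν with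
  | nil => rfl
  | cons k w ih =>
    change (fun i => ((co α w (rf α k ν) i : ℤ) : ℚ)) = co α w (rf α k fun i => (ν i : ℚ))
    rw [ih]
    congr 1
    funext i
    exact rf_cast k ν i

theorem co_add {A : Type} [CommRing A] (w : List (Fin p)) (μ ν : Fin p → A) :
    co α w (μ + ν) = co α w μ + co α w ν := by
  induction w generalizing μ ν with
  | nil => rfl
  | cons k w ih =>
    change co α w (rf α k (μ + ν)) = co α w (rf α k μ) + co α w (rf α k ν)
    rw [rf_add, ih]

theorem co_smul {A : Type} [CommRing A] (w : List (Fin p)) (t : A) (μ : Fin p → A) :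
    co α w (t • μ) = t • co α w μ := by
  induction w generalizing μ with
  | nil => rfl
  | cons k w ih =>
    change co α w (rf α k (t • μ)) = t • co α w (rf α k μ)
    rw [rf_smul, ih]

theorem co_zero {A : Type} [CommRing A] (w : List (Fin p)) :
    co α w (0 : Fin p → A) = 0 := by
  have := co_smul (α := α) w (0 : A) 0
  rwa [zero_smul, zero_smul] at this

theorem co_sum {A ι : Type} [CommRing A] (w : List (Fin p)) (s : Finset ι) (c : ι → A)
    (E : ι → Fin p → A) : co α w (∑ k ∈ s, c k • E k) = ∑ k ∈ s, c k • co α w (E k) := by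
  classical
  induction s using Finset.induction_on with
  | empty => simp [co_zero]
  | insert k s hk ih => rw [Finset.sum_insert hk, Finset.sum_insert hk, co_add, co_smul, ih]

theorem co_fix {A : Type} [CommRing A] {w : List (Fin p)} (hw : ∀ j ∈ w, j ∈ J) {κ : Fin p → A}
    (hκ : ∀ j ∈ J, κ j = 0) : co α w κ = κ := by
  induction w with
  | nil => rfl
  | cons k w ih =>
    change co α w (rf α k κ) = κ
    have e : rf α k κ = κ := by
      funext i
      unfold rf
      rw [hκ k (hw k (List.mem_cons_self ..)), mul_zero, add_zero]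
    rw [e]
    exact ih fun j hj => hw j (List.mem_cons_of_mem k hj)

variable (h : Refl N δ J α σ z θ)
include h

theorem Refl.same_mo {w : List (Fin p)} (hw : ∀ j ∈ w, j ∈ J) : Same N δ (mo α σ z δ w) := by
  induction w with
  | nil => exact fun _ _ => Iff.rfl
  | cons k w ih =>
    exact h.same_RR (hw k (List.mem_cons_self ..)) (ih fun j hj => hw j (List.mem_cons_of_mem k hj))

/-- effective combinations are carried to effective combinations -/
theorem Refl.eff_co {w : List (Fin p)} (hw : ∀ j ∈ w, j ∈ J) {ν : Fin p → ℤ}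
    (hν : ∃ f, f ≠ 0 ∧ IsSection N δ ν f) : ∃ f, f ≠ 0 ∧ IsSection N δ (co α w ν) f := by
  induction w generalizing ν with
  | nil => exact hν
  | cons k w ih =>
    obtain ⟨f, hf0, hf⟩ := hν
    have hk := hw k (List.mem_cons_self ..)
    refine ih (fun j hj => hw j (List.mem_cons_of_mem k hj)) ⟨z k ^ (ν k) * σ k f, ?_,
      h.refl k hk ν f hf⟩
    exact mul_ne_zero (zpow_ne_zero _ (h.z0 k hk)) (by rwa [Ne, map_eq_zero])

omit h in
/-- the degree of a reflected combination -/
theorem deg_rf (j : Fin p) (ν : Fin p → ℤ) :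
    ∑ i, θ i * rf α j ν i = ∑ i, θ i * ν i + ν j * ∑ i, θ i * α j i := by
  rw [Finset.mul_sum, ← Finset.sum_add_distrib]
  refine Finset.sum_congr rfl fun i _ => ?_
  unfold rf
  push_cast
  ring

/-- **Effective combinations are carried to nonnegative ones.** -/
theorem Refl.descent (d : ℕ) : ∀ ν : Fin p → ℤ, (∃ f, f ≠ 0 ∧ IsSection N δ ν f) →
    ∑ i, θ i * ν i ≤ d → ∃ w : List (Fin p), (∀ j ∈ w, j ∈ J) ∧ ∀ i, 0 ≤ co α w ν i := by
  induction d with
  | zero =>
    intro ν hν hd
    refine ⟨[], by simp, fun i => ?_⟩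
    by_contra hneg
    push Not at hneg
    change ν i < 0 at hneg
    obtain ⟨f, hf0, hf⟩ := hν
    have hi : i ∈ J := by
      by_contra hi
      exact absurd (h.fib i hi ν f hf0 hf) (not_le.2 hneg)
    have h1 := h.deg _ _ (mul_ne_zero (zpow_ne_zero (ν i) (h.z0 i hi))
      (by rwa [Ne, map_eq_zero] : σ i f ≠ 0)) (h.refl i hi ν f hf)
    rw [deg_rf] at h1
    have h2 := h.pos i hi
    push_cast at hd
    nlinarith
  | succ d ih =>
    intro ν hν hd
    by_cases hall : ∀ i, 0 ≤ ν i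
    · exact ⟨[], by simp, hall⟩
    push Not at hall
    obtain ⟨i, hneg⟩ := hall
    obtain ⟨f, hf0, hf⟩ := hν
    have hi : i ∈ J := by
      by_contra hi
      exact absurd (h.fib i hi ν f hf0 hf) (not_le.2 hneg)
    have h2 := h.pos i hi
    obtain ⟨w, hw, hw'⟩ := ih (rf α i ν) ⟨_, mul_ne_zero (zpow_ne_zero (ν i) (h.z0 i hi))
      (by rwa [Ne, map_eq_zero] : σ i f ≠ 0), h.refl i hi ν f hf⟩ (by
        rw [deg_rf]
        push_cast at hd
        nlinarith)
    refine ⟨i :: w, ?_, hw'⟩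
    intro j hj
    rcases List.mem_cons.1 hj with rfl | hj
    · exact hi
    · exact hw j hj

/-- transport back -/
theorem Refl.eqv_mo {w : List (Fin p)} (hw : ∀ j ∈ w, j ∈ J) :
    ∀ {δ' : Fin p → Place ℂ K → ℚ} {lam : Fin p → ℚ}, Same N δ δ' → AmpleAt N δ' lam →
      (∀ i, 0 ≤ co α w lam i) → Eqv N δ' (mo α σ z δ w) := by
  induction w with
  | nil => exact fun hs ha h0 => h.eqv_of_nonneg hs ha h0
  | cons k w ih =>
    intro δ' lam hs ha h0
    have hk := hw k (List.mem_cons_self ..)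
    have h1 := ih (fun j hj => hw j (List.mem_cons_of_mem k hj)) (h.same_RR hk hs)
      (h.ample_RR hk ha) h0
    have h2 := h.eqv_RR (j := k) h1
    rwa [h.RR_RR hk] at h2

/-- **The small modifications.** -/
theorem Refl.classify (hs : Same N δ δ') {lam : Fin p → ℚ} (ha : AmpleAt N δ' lam) :
    ∃ w : List (Fin p), (∀ j ∈ w, j ∈ J) ∧ Eqv N δ' (mo α σ z δ w) := by
  obtain ⟨k, hk, ν, hν, f, hf0, hf⟩ := ha.semiample.eff h.ex
  obtain ⟨w, hw, hw'⟩ := h.descent (∑ i, θ i * ν i).toNat ν ⟨f, hf0, (hs ν f).2 hf⟩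
    (Int.self_le_toNat _)
  refine ⟨w, hw, h.eqv_mo hw hs ha fun i => ?_⟩
  have hk' : (0 : ℚ) < k := by exact_mod_cast hk
  have e : (fun i => (ν i : ℚ)) = (k : ℚ) • lam := by
    funext i
    rw [Pi.smul_apply, smul_eq_mul, hν i]
  have h1 : ((co α w ν i : ℤ) : ℚ) = k * co α w lam i := by
    rw [show ((co α w ν i : ℤ) : ℚ) = (fun i => ((co α w ν i : ℤ) : ℚ)) i from rfl, co_castQ, e,
      co_smul, Pi.smul_apply, smul_eq_mul]
  have h2 : (0 : ℚ) ≤ ((co α w ν i : ℤ) : ℚ) := by exact_mod_cast hw' i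
  rw [h1] at h2
  exact (mul_nonneg_iff_of_pos_left hk').1 h2

/-- transport of flips -/
theorem Refl.flip_RR {j : Fin p} (hj : j ∈ J) {D : Fin p → ℝ} (hf : IsFlip N D δ' δ'') :
    IsFlip N (rf α j D) (RR α σ z j δ') (RR α σ z j δ'') := by
  obtain ⟨ℓ, L, ε, hε, hD, hp, hm, hL, hLL⟩ := hf
  -- the transposed reflection
  let ℓ' : Fin p → ℚ := fun i => ℓ i + if i = j then ∑ k, α j k * ℓ k else 0
  have hℓ : ∀ μ : Fin p → ℚ, ∑ i, ℓ' i * μ i = ∑ i, ℓ i * rf α j μ i := by
    intro μ
    have e : ∀ i, ℓ' i * μ i = ℓ i * μ i + if i = j then μ j * ∑ k, α j k * ℓ k else 0 := by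
      intro i
      change (ℓ i + if i = j then ∑ k, α j k * ℓ k else 0) * μ i = _
      by_cases hi : i = j
      · rw [if_pos hi, if_pos hi, hi]; ring
      · rw [if_neg hi, if_neg hi]; ring
    rw [Finset.sum_congr rfl fun i _ => e i, Finset.sum_add_distrib,
      Finset.sum_ite_eq' Finset.univ j, if_pos (Finset.mem_univ j), Finset.mul_sum,
      ← Finset.sum_add_distrib]
    refine Finset.sum_congr rfl fun i _ => ?_
    unfold rf
    ring
  have hℓR : ∀ μ : Fin p → ℝ, ∑ i, (ℓ' i : ℝ) * μ i = ∑ i, (ℓ i : ℝ) * rf α j μ i := by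
    intro μ
    have e : ∀ i, (ℓ' i : ℝ) * μ i = (ℓ i : ℝ) * μ i +
        if i = j then μ j * ∑ k, (α j k : ℝ) * ℓ k else 0 := by
      intro i
      change ((ℓ i + if i = j then ∑ k, α j k * ℓ k else 0 : ℚ) : ℝ) * μ i = _
      by_cases hi : i = j
      · rw [if_pos hi, if_pos hi, hi]; push_cast; ring
      · rw [if_neg hi, if_neg hi]; push_cast; ring
    rw [Finset.sum_congr rfl fun i _ => e i, Finset.sum_add_distrib,
      Finset.sum_ite_eq' Finset.univ j, if_pos (Finset.mem_univ j), Finset.mul_sum,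
      ← Finset.sum_add_distrib]
    refine Finset.sum_congr rfl fun i _ => ?_
    unfold rf
    ring
  obtain ⟨M, hM0, hM⟩ : ∃ M : ℚ, 1 ≤ M ∧ ∀ i, |(α j i : ℚ)| ≤ M := by
    refine ⟨1 + ∑ i, |(α j i : ℚ)|, ?_, fun i => ?_⟩
    · have : 0 ≤ ∑ i, |(α j i : ℚ)| := Finset.sum_nonneg fun i _ => abs_nonneg _
      linarith
    · have := Finset.single_le_sum (f := fun i => |(α j i : ℚ)|) (fun i _ => abs_nonneg _)
        (Finset.mem_univ i)
      linarith
  have hself := h.self j hj
  have hback : ∀ {ε' : Fin p → Place ℂ K → ℚ} {μ : Fin p → ℚ},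
      Semiample N (RR α σ z j ε') μ → Semiample N ε' (rf α j μ) := by
    intro ε' μ hμ
    have := h.semiample_RR hj hμ
    rwa [h.RR_RR hj] at this
  refine ⟨ℓ', rf α j L, ε / (1 + M), by positivity, ?_, fun μ hμ => ?_, fun μ hμ => ?_, ?_,
    fun μ hμ h0 => ?_⟩
  · rw [hℓR, rf_rf hself]
    exact hD
  · rw [hℓ]
    exact hp _ (hback hμ)
  · rw [hℓ]
    exact hm _ (hback hμ)
  · rw [hℓ, rf_rf hself]
    exact hL
  · have h1 := hLL (rf α j μ) (fun i => ?_) (by rw [← hℓ]; exact h0)
    · have h2 := h.semiample_RR hj h1.1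
      have h3 := h.semiample_RR hj h1.2
      rw [rf_rf hself] at h2 h3
      exact ⟨h2, h3⟩
    · have e : rf α j μ i - L i = (μ i - rf α j L i) + α j i * (μ j - rf α j L j) := by
        have e1 : L = rf α j (rf α j L) := (rf_rf hself L).symm
        conv_lhs => rw [e1]
        unfold rf
        ring
      rw [e]
      calc |(μ i - rf α j L i) + α j i * (μ j - rf α j L j)|
          ≤ |μ i - rf α j L i| + |α j i * (μ j - rf α j L j)| := abs_add_le _ _
        _ = |μ i - rf α j L i| + |(α j i : ℚ)| * |μ j - rf α j L j| := by rw [abs_mul]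
        _ ≤ ε / (1 + M) + M * (ε / (1 + M)) := by
          refine add_le_add (hμ i) (mul_le_mul (hM i) (hμ j) (abs_nonneg _) (by linarith))
        _ = ε := by field_simp

omit h in
theorem IsFlip.congr {D : Fin p → ℝ} {ε' ε'' : Fin p → Place ℂ K → ℚ}
    (hf : IsFlip N D δ' δ'') (h1 : Eqv N δ' ε') (h2 : Eqv N δ'' ε'') : IsFlip N D ε' ε'' := by
  obtain ⟨ℓ, L, ε, hε, hD, hp, hm, hL, hLL⟩ := hf
  exact ⟨ℓ, L, ε, hε, hD, fun μ hμ => hp μ (h1.symm.semiample hμ),
    fun μ hμ => hm μ (h2.symm.semiample hμ), hL, fun μ hμ h0 =>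
      ⟨h1.semiample (hLL μ hμ h0).1, h2.semiample (hLL μ hμ h0).2⟩⟩

/-- **The flips of the small modifications.** -/
theorem Refl.flip_mo {w : List (Fin p)} (hw : ∀ j ∈ w, j ∈ J) :
    ∀ {D : Fin p → ℝ} {δ'' : Fin p → Place ℂ K → ℚ} {lam : Fin p → ℚ}, Same N δ δ'' →
      AmpleAt N δ'' lam → IsFlip N D (mo α σ z δ w) δ'' →
      ∃ j ∈ J, co α w D j < 0 ∧ Eqv N δ'' (mo α σ z δ (w ++ [j])) := by
  induction w with
  | nil => exact fun hs ha hf => h.flip hs ha hf
  | cons k w ih =>
    intro D δ'' lam hs ha hf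
    have hk := hw k (List.mem_cons_self ..)
    have h1 := h.flip_RR hk hf
    rw [show mo α σ z δ (k :: w) = RR α σ z k (mo α σ z δ w) from rfl, h.RR_RR hk] at h1
    obtain ⟨j, hj, hD, he⟩ := ih (fun j hj => hw j (List.mem_cons_of_mem k hj))
      (h.same_RR hk hs) (h.ample_RR hk ha) h1
    refine ⟨j, hj, hD, ?_⟩
    have h2 := h.eqv_RR (j := k) he
    rwa [h.RR_RR hk] at h2

/-- **Termination.** Let `κ` be a real combination whose coefficients in `J` are zero (for instance
the canonical class), and let `E k` be integral combinations which have nonzero sections and `c k`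
positive real numbers. Every sequence of flips for `κ + ∑ k, c k * E k` which starts with `X` is
finite, with an explicit bound for the number of the flips. -/
theorem Refl.terminates {κ : Fin p → ℝ} (hκ : ∀ j ∈ J, κ j = 0) {q : ℕ}
    (E : Fin q → Fin p → ℤ) (hE : ∀ k, ∃ f, f ≠ 0 ∧ IsSection N δ (E k) f) (c : Fin q → ℝ)
    (hc : ∀ k, 0 < c k) (w₀ : List (Fin p)) (hw₀ : ∀ j ∈ w₀, j ∈ J) (L : ℕ)
    (δs : ℕ → Fin p → Place ℂ K → ℚ) (h0 : Eqv N (δs 0) (mo α σ z δ w₀))
    (hm : ∀ j ≤ L, IsSmallModification N δ (δs j))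
    (hf : ∀ j < L, IsFlip N (fun i => κ i + ∑ k, c k * E k i) (δs j) (δs (j + 1))) :
    L < ∏ k, (⌊(∑ l, c l * ∑ i, (θ i : ℝ) * (co α w₀ (E l) i : ℤ)) / c k⌋₊ + 1) := by
  classical
  set D : Fin p → ℝ := fun i => κ i + ∑ k, c k * E k i with hDdef
  -- the words
  have hwords : ∀ m ≤ L, ∃ W : ℕ → List (Fin p), W 0 = w₀ ∧ (∀ i ≤ m, ∀ j ∈ W i, j ∈ J) ∧
      (∀ i ≤ m, Eqv N (δs i) (mo α σ z δ (W i))) ∧
      ∀ i < m, ∃ j ∈ J, W (i + 1) = W i ++ [j] ∧ co α (W i) D j < 0 := by
    intro m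
    induction m with
    | zero =>
      intro _
      refine ⟨fun _ => w₀, rfl, fun i _ => hw₀, fun i hi => ?_, fun i hi => absurd hi (by omega)⟩
      rw [Nat.le_zero.1 hi]
      exact h0
    | succ m ih =>
      intro hm1
      obtain ⟨W, hW0, hWJ, hWe, hWs⟩ := ih (by omega)
      obtain ⟨hs, lam, ε, hε, ha⟩ := hm (m + 1) hm1
      have hfl := (hf m (by omega)).congr (hWe m le_rfl) (fun P _ i => rfl : Eqv N _ _)
      obtain ⟨j, hj, hDj, he⟩ := h.flip_mo (hWJ m le_rfl) hs ⟨ε, hε, ha⟩ hfl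
      refine ⟨fun i => if i ≤ m then W i else W m ++ [j], ?_, fun i hi k hk => ?_,
        fun i hi => ?_, fun i hi => ?_⟩
      · dsimp only
        rw [if_pos (Nat.zero_le m), hW0]
      · dsimp only at hk
        split_ifs at hk with h1
        · exact hWJ i h1 k hk
        · rcases List.mem_append.1 hk with h2 | h2
          · exact hWJ m le_rfl k h2
          · rw [List.mem_singleton.1 h2]
            exact hj
      · dsimp only
        split_ifs with h1
        · exact hWe i h1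
        · rw [show i = m + 1 by omega]
          exact he
      · by_cases h1 : i = m
        · refine ⟨j, hj, ?_, ?_⟩
          · dsimp only
            rw [if_neg (by omega), if_pos (by omega), h1]
          · dsimp only
            rw [if_pos (by omega), h1]
            exact hDj
        · obtain ⟨k, hk, h2, h3⟩ := hWs i (by omega)
          refine ⟨k, hk, ?_, ?_⟩
          · dsimp only
            rw [if_pos (by omega), if_pos (by omega), h2]
          · dsimp only
            rw [if_pos (by omega)]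
            exact h3
  obtain ⟨W, hW0, hWJ, -, hWs⟩ := hwords L le_rfl
  -- the degrees
  let T : ℕ → Fin q → ℤ := fun m k => ∑ i, θ i * co α (W m) (E k) i
  let Θ : ℕ → ℝ := fun m => ∑ k, c k * T m k
  have hcoD : ∀ m ≤ L, ∀ j ∈ J, co α (W m) D j = ∑ k, c k * (co α (W m) (E k) j : ℤ) := by
    intro m hmL j hj
    have e1 : D = κ + ∑ k, c k • fun i => (E k i : ℝ) := by
      funext i
      rw [Pi.add_apply, Finset.sum_apply]
      rfl
    rw [e1, co_add, co_sum, co_fix (hWJ m hmL) hκ, Pi.add_apply, hκ j hj, zero_add,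
      Finset.sum_apply]
    refine Finset.sum_congr rfl fun k _ => ?_
    rw [Pi.smul_apply, smul_eq_mul, ← co_cast]
  have hT0 : ∀ m ≤ L, ∀ k, 0 ≤ T m k := by
    intro m hmL k
    obtain ⟨f, hf0, hf⟩ := h.eff_co (hWJ m hmL) (hE k)
    exact h.deg _ f hf0 hf
  have hstep : ∀ m < L, Θ (m + 1) < Θ m := by
    intro m hmL
    obtain ⟨j, hj, hWj, hDj⟩ := hWs m hmL
    have e1 : ∀ k, T (m + 1) k = T m k + co α (W m) (E k) j * ∑ i, θ i * α j i := by
      intro k
      change ∑ i, θ i * co α (W (m + 1)) (E k) i = _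
      rw [hWj, co_append, deg_rf]
    have e2 : Θ (m + 1) = Θ m + (∑ i, θ i * α j i : ℤ) * co α (W m) D j := by
      change ∑ k, c k * (T (m + 1) k : ℝ) = ∑ k, c k * (T m k : ℝ) + _
      rw [hcoD m hmL.le j hj, Finset.mul_sum, ← Finset.sum_add_distrib]
      refine Finset.sum_congr rfl fun k _ => ?_
      rw [e1]
      push_cast
      ring
    have h1 : (0 : ℝ) < (∑ i, θ i * α j i : ℤ) := by exact_mod_cast h.pos j hj
    rw [e2]
    nlinarith
  have hanti : ∀ m n, m < n → n ≤ L → Θ n < Θ m := by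
    intro m n hmn
    induction n, hmn using Nat.le_induction with
    | base => exact fun hn => hstep m (by omega)
    | succ n hn ih => exact fun hn' => (hstep n (by omega)).trans (ih (by omega))
  have hle0 : ∀ m ≤ L, Θ m ≤ Θ 0 := by
    intro m hmL
    rcases Nat.eq_zero_or_pos m with rfl | hpos
    · exact le_rfl
    · exact (hanti 0 m hpos hmL).le
  have hTle : ∀ m ≤ L, ∀ k, (T m k).toNat ≤ ⌊Θ 0 / c k⌋₊ := by
    intro m hmL k
    refine Nat.le_floor ?_
    rw [le_div_iff₀ (hc k)]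
    have h1 : ((T m k).toNat : ℝ) = T m k := by
      have : (((T m k).toNat : ℕ) : ℤ) = T m k := Int.toNat_of_nonneg (hT0 m hmL k)
      exact_mod_cast this
    rw [h1]
    refine le_trans ?_ (hle0 m hmL)
    have h2 : ∀ l, 0 ≤ c l * (T m l : ℝ) := fun l =>
      mul_nonneg (hc l).le (by exact_mod_cast hT0 m hmL l)
    have h3 := Finset.single_le_sum (f := fun l => c l * (T m l : ℝ)) (fun l _ => h2 l)
      (Finset.mem_univ k)
    calc (T m k : ℝ) * c k = c k * T m k := mul_comm _ _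
      _ ≤ Θ m := h3
  -- pigeonhole
  have e0 : Θ 0 = ∑ l, c l * ∑ i, (θ i : ℝ) * (co α w₀ (E l) i : ℤ) := by
    change ∑ k, c k * ((∑ i, θ i * co α (W 0) (E k) i : ℤ) : ℝ) = _
    rw [hW0]
    refine Finset.sum_congr rfl fun k _ => ?_
    push_cast
    rfl
  rw [← e0]
  let g : Fin (L + 1) → (∀ k : Fin q, Fin (⌊Θ 0 / c k⌋₊ + 1)) := fun m k =>
    ⟨(T m k).toNat, Nat.lt_succ_of_le (hTle m (by omega) k)⟩
  have hg : Function.Injective g := by
    intro m n hmn
    by_contra hne
    have hT : ∀ k, T m k = T n k := by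
      intro k
      have h1 := congrArg (fun x : Fin (⌊Θ 0 / c k⌋₊ + 1) => (x : ℕ)) (congrFun hmn k)
      have h2 : (T m k).toNat = (T n k).toNat := h1
      have h3 := hT0 m (by omega) k
      have h4 := hT0 n (by omega) k
      omega
    have hΘ : Θ m = Θ n := Finset.sum_congr rfl fun k _ => by rw [hT k]
    rcases lt_or_gt_of_ne (fun h => hne (Fin.ext h) : (m : ℕ) ≠ n) with h1 | h1
    · exact absurd hΘ (hanti m n h1 (by omega)).ne'
    · exact absurd hΘ (hanti n m h1 (by omega)).ne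
  have hcard := Fintype.card_le_of_injective g hg
  rw [Fintype.card_fin, Fintype.card_pi] at hcard
  simp only [Fintype.card_fin] at hcard
  omega

end

end Pool.Agent.H73.TF
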