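import Pool.Agent.H73.TF.Trd
import Pool.Agent.H73.TF.Term

/-!
Hypersurfaces in products of projective spaces: orders at the places.
-/

set_option autoImplicit false

open FF Pool.Agent.W602.GT Pool.Agent.W603.LV Pool.Agent.Y172

namespace Pool.Agent.H73.TF

section

variable {K : Type} [Field K] [Algebra ℂ K] {r N M : ℕ} {n : Fin r → ℕ}
  {x : ∀ i, Fin (n i + 1) → K}

theorem mo_le {m : ℕ} (y : Fin (m + 1) → K) (P : Place ℂ K) (k : Fin (m + 1)) :
    minimalOrder y P ≤ P.ord (y k) := Finset.inf'_le _ (Finset.mem_univ k)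

theorem mo_nonpos {m : ℕ} {y : Fin (m + 1) → K} (h : y 0 = 1) (P : Place ℂ K) :
    minimalOrder y P ≤ 0 := by
  have := mo_le y P 0
  rwa [h, P.ord_one] at this

theorem exists_mo {m : ℕ} {y : Fin (m + 1) → K} (h : y 0 = 1) (P : Place ℂ K) :
    ∃ k, y k ≠ 0 ∧ P.ord (y k) = minimalOrder y P := by
  obtain ⟨k, -, hk⟩ := Finset.exists_mem_eq_inf' (Finset.univ_nonempty (α := Fin (m + 1)))
    (fun k => P.ord (y k))
  by_cases h0 : y k = 0
  · refine ⟨0, by rw [h]; exact one_ne_zero, ?_⟩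
    rw [h, P.ord_one]
    have : minimalOrder y P = P.ord (y k) := hk
    rw [this, h0, P.ord_zero]
  · exact ⟨k, h0, hk.symm⟩

theorem mo_ge {m : ℕ} (y : Fin (m + 1) → K) (P : Place ℂ K) (k : Fin (m + 1)) :
    Ge P (minimalOrder y P) (y k) := Or.inr (mo_le y P k)

/-- the order of the value of a form -/
theorem value_ge {g : Fin r → ℕ} {G : MvPolynomial (Σ i : Fin r, Fin (n i + 1)) ℂ}
    (hG : IsForm g G) (P : Place ℂ K) :
    Ge P (∑ i, (g i : ℤ) * minimalOrder (x i) P) (value x G) := by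
  rw [value_eq]
  refine Ge.sum _ _ fun s hs => ?_
  have h1 : Ge P (∑ v : Σ i : Fin r, Fin (n i + 1), (s v : ℤ) * minimalOrder (x v.1) P)
      (∏ v, x v.1 v.2 ^ s v) :=
    Ge.prod _ _ _ fun v _ => (mo_ge (x v.1) P v.2).pow (s v)
  have h2 := (Ge.const (P := P) (G.coeff s)).mul h1
  refine h2.mono (le_of_eq ?_)
  rw [zero_add]
  have h3 : ∀ v : Σ i : Fin r, Fin (n i + 1), (s v : ℤ) * minimalOrder (x v.1) P =
      ∑ i, (s v * (if v.1 = i then 1 else 0) : ℕ) * minimalOrder (x i) P := by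
    intro v
    rw [Finset.sum_eq_single v.1]
    · simp
    · intro i _ hi
      rw [if_neg (Ne.symm hi)]
      simp
    · intro hi
      exact absurd (Finset.mem_univ _) hi
  rw [Finset.sum_congr rfl fun v _ => h3 v, Finset.sum_comm]
  refine Finset.sum_congr rfl fun i _ => ?_
  rw [← Finset.sum_mul, ← weight_eq hG hs i]
  push_cast
  rfl

/-- **Gauss's lemma for quadratic polynomials.** -/
theorem quad_ge {P : Place ℂ K} {a ξ ξ' : K} :
    Ge P (P.ord a + min 0 (P.ord ξ) + min 0 (P.ord ξ')) a ∧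
    Ge P (P.ord a + min 0 (P.ord ξ) + min 0 (P.ord ξ')) (a * (ξ + ξ')) ∧
    Ge P (P.ord a + min 0 (P.ord ξ) + min 0 (P.ord ξ')) (a * (ξ * ξ')) := by
  have ha : Ge P (P.ord a) a := Or.inr le_rfl
  have h1 : Ge P (min 0 (P.ord ξ)) ξ := Or.inr (min_le_right _ _)
  have h2 : Ge P (min 0 (P.ord ξ')) ξ' := Or.inr (min_le_right _ _)
  have h3 := min_le_left 0 (P.ord ξ)
  have h4 := min_le_left 0 (P.ord ξ')
  refine ⟨ha.mono (by omega), ?_, ?_⟩
  · exact (ha.mul ((h1.mono (M := min 0 (P.ord ξ) + min 0 (P.ord ξ')) (by omega)).add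
      (h2.mono (by omega)))).mono (by omega)
  · exact (ha.mul (h1.mul h2)).mono (by omega)

theorem quad_le {P : Place ℂ K} {a ξ ξ' : K} (ha0 : a ≠ 0) {β : ℤ} (h1 : Ge P β a)
    (h2 : Ge P β (a * (ξ + ξ'))) (h3 : Ge P β (a * (ξ * ξ'))) :
    β ≤ P.ord a + min 0 (P.ord ξ) + min 0 (P.ord ξ') := by
  have h1' := h1.resolve_left ha0
  have hz : ∀ {u : K}, P.ord u < 0 → u ≠ 0 := by
    rintro u hu rfl
    rw [P.ord_zero] at hu
    omega
  -- one negative order
  have key : ∀ {u v : K}, Ge P β (a * (u + v)) → P.ord u < 0 → 0 ≤ P.ord v →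
      β ≤ P.ord a + P.ord u := by
    intro u v h hu hv
    have hu0 := hz hu
    have h4 : u + v ≠ 0 ∧ P.ord (u + v) = P.ord u := by
      by_cases hv0 : v = 0
      · rw [hv0, add_zero]
        exact ⟨hu0, rfl⟩
      · exact P.ord_add_eq hu0 hv0 (by omega)
    have h5 := h.resolve_left (mul_ne_zero ha0 h4.1)
    rwa [P.ord_mul ha0 h4.1, h4.2] at h5
  rcases lt_or_ge (P.ord ξ) 0 with hξ | hξ
  · rcases lt_or_ge (P.ord ξ') 0 with hξ' | hξ'
    · have h4 := h3.resolve_left (mul_ne_zero ha0 (mul_ne_zero (hz hξ) (hz hξ')))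
      rw [P.ord_mul ha0 (mul_ne_zero (hz hξ) (hz hξ')), P.ord_mul (hz hξ) (hz hξ')] at h4
      rw [min_eq_right hξ.le, min_eq_right hξ'.le]
      omega
    · have h4 := key h2 hξ hξ'
      rw [min_eq_right hξ.le, min_eq_left hξ']
      omega
  · rcases lt_or_ge (P.ord ξ') 0 with hξ' | hξ'
    · rw [add_comm ξ ξ'] at h2
      have h4 := key h2 hξ' hξ
      rw [min_eq_right hξ'.le, min_eq_left hξ]
      omega
    · rw [min_eq_left hξ', min_eq_left hξ]
      omega

/-- the minimal order for a projective line -/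
theorem mo_line {m : ℕ} (hm : m = 1) {y : Fin (m + 1) → K} (h0 : y 0 = 1) (P : Place ℂ K) :
    minimalOrder y P = min 0 (P.ord (y (Fin.last m))) := by
  refine le_antisymm (le_min (mo_nonpos h0 P) (mo_le y P _)) ?_
  refine Finset.le_inf' _ _ fun k _ => ?_
  rcases (show k = 0 ∨ k = Fin.last m by
    have := k.2
    rcases Nat.eq_zero_or_pos (k : ℕ) with h | h
    · left; exact Fin.ext h
    · right; refine Fin.ext ?_; rw [Fin.val_last]; omega) with rfl | rfl
  · rw [h0, P.ord_one]
    exact min_le_left _ _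
  · exact min_le_right _ _

/-! ### Hartogs -/

theorem segre_ne {e : Fin (M + 1) ≃ (∀ i, Fin (n i + 1))} {t : Fin (M + 1)}
    (h : ∀ i, x i (e t i) ≠ 0) : segre e x t ≠ 0 := Finset.prod_ne_zero_iff.2 fun i _ => h i

theorem segre_div {e : Fin (M + 1) ≃ (∀ i, Fin (n i + 1))} (t t' : Fin (M + 1)) :
    segre e x t' / segre e x t = ∏ i, x i (e t' i) / x i (e t i) :=
  (Finset.prod_div_distrib ..).symm

theorem segre_update {e : Fin (M + 1) ≃ (∀ i, Fin (n i + 1))} {t : Fin (M + 1)}
    (h : ∀ i, x i (e t i) ≠ 0) (i : Fin r) (k : Fin (n i + 1)) :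
    segre e x (e.symm (Function.update (e t) i k)) / segre e x t = x i k / x i (e t i) := by
  rw [segre_div, Finset.prod_eq_single i]
  · rw [Equiv.apply_symm_apply, Function.update_self]
  · intro l _ hl
    rw [Equiv.apply_symm_apply, Function.update_of_ne hl, div_self (h l)]
  · intro hi
    exact absurd (Finset.mem_univ i) hi

/-- **Hartogs.** A bound for the order at the prime divisors of `X` holds at all places. -/
theorem hartogs {e : Fin (M + 1) ≃ (∀ i, Fin (n i + 1))} (hX : NormalModel (segre e x))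
    (hx0 : ∀ i, x i 0 = 1) {ν : Fin r → ℤ} {f : K} (hf0 : f ≠ 0)
    (h : ∀ P, IsPrimeDivisor (segre e x) P → ∑ i, ν i * minimalOrder (x i) P ≤ P.ord f)
    (Q : Place ℂ K) : ∑ i, ν i * minimalOrder (x i) Q ≤ Q.ord f := by
  classical
  choose κ hκ0 hκ using fun i => exists_mo (hx0 i) Q
  set t : Fin (M + 1) := e.symm κ with ht
  have het : e t = κ := by rw [ht, Equiv.apply_symm_apply]
  have hne : ∀ i, x i (e t i) ≠ 0 := by rw [het]; exact hκ0
  have hreg : ∀ i k, Q.Reg (x i k / x i (κ i)) := by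
    intro i k
    by_cases h0 : x i k = 0
    · left; rw [h0, zero_div]
    · right
      rw [Q.ord_div h0 (hκ0 i), hκ i]
      have := mo_le (x i) Q k
      omega
  have hcen : Centred (segre e x) t Q := by
    refine ⟨segre_ne hne, fun t' => ?_⟩
    rw [segre_div, het]
    exact Finset.prod_induction _ _ (fun a b ha hb => Q.reg_mul ha hb) Q.reg_one fun i _ => hreg i _
  set D : K := ∏ i, x i (κ i) ^ ν i with hD
  have hD0 : D ≠ 0 := Finset.prod_ne_zero_iff.2 fun i _ => zpow_ne_zero _ (hκ0 i)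
  have hDord : ∀ P : Place ℂ K, P.ord D = ∑ i, ν i * P.ord (x i (κ i)) := by
    intro P
    have : ∀ s : Finset (Fin r), P.ord (∏ i ∈ s, x i (κ i) ^ ν i) =
        ∑ i ∈ s, ν i * P.ord (x i (κ i)) := by
      intro s
      induction s using Finset.induction_on with
      | empty => rw [Finset.prod_empty, Finset.sum_empty, P.ord_one]
      | insert i s hi ih =>
        rw [Finset.prod_insert hi, Finset.sum_insert hi, P.ord_mul (zpow_ne_zero _ (hκ0 i))
          (Finset.prod_ne_zero_iff.2 fun i _ => zpow_ne_zero _ (hκ0 i)), ih, P.ord_zpow]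
    exact this _
  have hmem : f / D ∈ localRing (segre e x) Q := by
    refine mem_localRing_of_reg hX fun P hP hPQ => ?_
    right
    rw [P.ord_div hf0 hD0, hDord]
    have h1 : ∀ i, P.ord (x i (κ i)) = minimalOrder (x i) P := by
      intro i
      refine le_antisymm ?_ (mo_le (x i) P _)
      refine Finset.le_inf' _ _ fun k _ => ?_
      by_cases h0 : x i k = 0
      · -- the order of zero
        have h2 := hPQ _ (chart_localRing hcen (gen_mem (segre e x) t
          (e.symm (Function.update (e t) i 0))))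
        rw [segre_update hne, het, hx0 i] at h2
        have h3 := (P.reg_iff (div_ne_zero one_ne_zero (hκ0 i))).1 h2
        rw [P.ord_div one_ne_zero (hκ0 i), P.ord_one] at h3
        rw [h0, P.ord_zero]
        omega
      · have h2 := hPQ _ (chart_localRing hcen (gen_mem (segre e x) t
          (e.symm (Function.update (e t) i k))))
        rw [segre_update hne, het] at h2
        have h3 := (P.reg_iff (div_ne_zero h0 (hκ0 i))).1 h2
        rw [P.ord_div h0 (hκ0 i)] at h3
        omega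
    rw [Finset.sum_congr rfl fun i _ => by rw [h1 i]]
    have := h P hP
    omega
  have h1 := (Q.reg_iff (div_ne_zero hf0 hD0)).1 (localRing_reg hmem)
  rw [Q.ord_div hf0 hD0, hDord, Finset.sum_congr rfl fun i _ => by rw [hκ i]] at h1
  omega

end

end Pool.Agent.H73.TF
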