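import Pool.Agent.H73.TF.Inv

/-!
Hypersurfaces in products of projective spaces: the reflections.
-/

set_option autoImplicit false

open FF Pool.Agent.W602.GT Pool.Agent.W603.LV Pool.Agent.Y172

namespace Pool.Agent.H73.TF

section

variable {K : Type} [Field K] [Algebra ℂ K] {r N M : ℕ} {n : Fin r → ℕ}

/-- The hypotheses on the hypersurface. -/
structure Hyp (N : ℕ) (d : Fin r → ℕ) (x : ∀ i, Fin (n i + 1) → K)
    (e : Fin (M + 1) ≃ (∀ i, Fin (n i + 1)))
    (A B C : Fin r → MvPolynomial (Σ i : Fin r, Fin (n i + 1)) ℂ) : Prop where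
  hn : ∀ i, 1 ≤ n i
  hx0 : ∀ i, x i 0 = 1
  hdim : Algebra.trdeg ℂ K = N
  hN : N + 1 = ∑ i, n i
  hX : NormalModel (segre e x)
  hd : ∀ i, n i = 1 → d i = 0 ∨ d i = 2
  hA : ∀ j, n j = 1 → d j = 2 → IsForm (Function.update d j 0) (A j)
  hB : ∀ j, n j = 1 → d j = 2 → IsForm (Function.update d j 0) (B j)
  hC : ∀ j, n j = 1 → d j = 2 → IsForm (Function.update d j 0) (C j)
  rel : ∀ j, n j = 1 → d j = 2 → value x (A j) * x j (Fin.last (n j)) ^ 2 +
    value x (B j) * x j (Fin.last (n j)) + value x (C j) = 0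
  irr : ∀ j, n j = 1 → d j = 2 → x j (Fin.last (n j)) ∉ FT x {j}
  cod : ∀ j, n j = 1 → d j = 2 → ∀ P, IsPrimeDivisor (segre e x) P →
    ¬ (VanishesAt x (Function.update d j 0) (A j) P ∧ VanishesAt x (Function.update d j 0) (B j) P ∧
      VanishesAt x (Function.update d j 0) (C j) P)
  flop : ∀ j, n j = 1 → d j = 2 → ∃ P, Divisorial N P ∧
    VanishesAt x (Function.update d j 0) (A j) P ∧ VanishesAt x (Function.update d j 0) (B j) P ∧
      VanishesAt x (Function.update d j 0) (C j) P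
  big : (∃ i, ¬ (n i = 1 ∧ d i = 2) ∧ 1 ≤ d i) ∨
    3 ≤ (Finset.univ.filter fun i : Fin r => n i = 1 ∧ d i = 2).card
  ne : ∃ j, n j = 1 ∧ d j = 2

variable {d : Fin r → ℕ} {x : ∀ i, Fin (n i + 1) → K} {e : Fin (M + 1) ≃ (∀ i, Fin (n i + 1))}
  {A B C : Fin r → MvPolynomial (Σ i : Fin r, Fin (n i + 1)) ℂ}

/-- the lower bound for the orders of the coefficients -/
noncomputable def beta (d : Fin r → ℕ) (x : ∀ i, Fin (n i + 1) → K) (j : Fin r)
    (P : Place ℂ K) : ℤ :=
  ∑ i, (Function.update d j 0 i : ℤ) * minimalOrder (x i) P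

theorem vanishes_iff {g : Fin r → ℕ} {G : MvPolynomial (Σ i : Fin r, Fin (n i + 1)) ℂ}
    {P : Place ℂ K} : VanishesAt x g G P ↔
      Ge P (∑ i, (g i : ℤ) * minimalOrder (x i) P + 1) (value x G) := by
  unfold VanishesAt Ge
  rw [Int.add_one_le_iff]

variable (h : Hyp N d x e A B C)
include h

/-- the field is generated by the coordinates -/
theorem Hyp.gen : IntermediateField.adjoin ℂ {a | ∃ i k, a = x i k} = ⊤ := by
  have e1 : segre e x (e.symm fun _ => 0) = 1 := by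
    unfold segre
    refine Finset.prod_eq_one fun i _ => ?_
    rw [Equiv.apply_symm_apply, h.hx0]
  have h1 := h.hX.field (e.symm fun _ => 0) (by rw [e1]; exact one_ne_zero)
  rw [eq_top_iff, ← h1, IntermediateField.adjoin_le_iff]
  rintro _ ⟨t, rfl⟩
  change segre e x t / segre e x (e.symm fun _ => 0) ∈ _
  rw [e1, div_one]
  exact prod_mem fun i _ => IntermediateField.subset_adjoin ℂ _ ⟨i, _, rfl⟩

theorem Hyp.ess : Algebra.EssFiniteType ℂ K := h.hX.ess

theorem Hyp.coef_mem {j : Fin r} (hj : n j = 1) (hdj : d j = 2) : value x (A j) ∈ FT x {j} ∧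
    value x (B j) ∈ FT x {j} ∧ value x (C j) ∈ FT x {j} := by
  have key : ∀ {G : MvPolynomial (Σ i : Fin r, Fin (n i + 1)) ℂ},
      IsForm (Function.update d j 0) G → value x G ∈ FT x {j} := by
    intro G hG
    refine value_mem hG _ fun i hi k => mem_FT ?_ k
    intro hij
    rw [Finset.mem_singleton] at hij
    subst hij
    rw [Function.update_self] at hi
    exact hi rfl
  exact ⟨key (h.hA j hj hdj), key (h.hB j hj hdj), key (h.hC j hj hdj)⟩

/-- some prime divisor -/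
theorem Hyp.exists_prime : ∃ P, IsPrimeDivisor (segre e x) P := by
  obtain ⟨j, hj, hdj⟩ := h.ne
  obtain ⟨Q, -⟩ := h.flop j hj hdj
  obtain ⟨P, hP, -⟩ := exists_through h.hX Q
  exact ⟨P, hP⟩

theorem Hyp.coef_ne {j : Fin r} (hj : n j = 1) (hdj : d j = 2) :
    ¬ (value x (A j) = 0 ∧ value x (B j) = 0 ∧ value x (C j) = 0) := by
  rintro ⟨h1, h2, h3⟩
  obtain ⟨P, hP⟩ := h.exists_prime
  exact h.cod j hj hdj P hP ⟨Or.inl h1, Or.inl h2, Or.inl h3⟩

/-- the involution -/
theorem Hyp.exists_sigma {j : Fin r} (hj : n j = 1) (hdj : d j = 2) :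
    ∃ σ : K ≃ₐ[ℂ] K, (∀ f, σ (σ f) = f) ∧ (∀ f ∈ FT x {j}, σ f = f) ∧
      σ (x j (Fin.last (n j))) ≠ x j (Fin.last (n j)) := by
  obtain ⟨h1, h2, h3⟩ := h.coef_mem hj hdj
  refine exists_inv (FT x {j}) h1 h2 h3 (h.coef_ne hj hdj) (h.rel j hj hdj) (h.irr j hj hdj)
    fun E hE hξ => ?_
  rw [eq_top_iff, ← h.gen, IntermediateField.adjoin_le_iff]
  rintro _ ⟨i, k, rfl⟩
  by_cases hi : i = j
  · subst hi
    rcases (show k = 0 ∨ k = Fin.last (n i) by
      have := k.2
      rcases Nat.eq_zero_or_pos (k : ℕ) with h | h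
      · left; exact Fin.ext h
      · right; refine Fin.ext ?_; rw [Fin.val_last]; omega) with rfl | rfl
    · rw [h.hx0]
      exact one_mem E
    · exact hξ
  · exact hE (mem_FT (by rwa [Finset.mem_singleton]) k)

open scoped Classical in
/-- the involutions -/
noncomputable def Hyp.sg (h : Hyp N d x e A B C) (j : Fin r) : K ≃ₐ[ℂ] K :=
  if hj : n j = 1 ∧ d j = 2 then (h.exists_sigma hj.1 hj.2).choose else AlgEquiv.refl

theorem Hyp.sg_spec {j : Fin r} (hj : n j = 1) (hdj : d j = 2) :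
    (∀ f, h.sg j (h.sg j f) = f) ∧ (∀ f ∈ FT x {j}, h.sg j f = f) ∧
      h.sg j (x j (Fin.last (n j))) ≠ x j (Fin.last (n j)) := by
  unfold Hyp.sg
  rw [dif_pos ⟨hj, hdj⟩]
  exact (h.exists_sigma hj hdj).choose_spec

theorem Hyp.A_ne {j : Fin r} (hj : n j = 1) (hdj : d j = 2) : value x (A j) ≠ 0 := by
  intro h0
  obtain ⟨h1, h2, h3⟩ := h.coef_mem hj hdj
  obtain ⟨-, hf, hne⟩ := h.sg_spec hj hdj
  obtain ⟨e1, e2⟩ := vieta (hf _ h1) (hf _ h2) (hf _ h3) (h.rel j hj hdj) hne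
  refine h.coef_ne hj hdj ⟨h0, ?_, ?_⟩
  · rw [e1, h0, zero_mul, neg_zero]
  · rw [e2, h0, zero_mul]

/-- the minimal orders at the image of a place -/
theorem Hyp.mo_pl {j : Fin r} (hj : n j = 1) (hdj : d j = 2) (P : Place ℂ K) {i : Fin r}
    (hi : i ≠ j) : minimalOrder (x i) (pl (h.sg j) P) = minimalOrder (x i) P := by
  unfold minimalOrder
  congr 1
  funext k
  rw [pl_ord, (h.sg_spec hj hdj).2.1 _ (mem_FT (by rwa [Finset.mem_singleton]) k)]

theorem Hyp.beta_pl {j : Fin r} (hj : n j = 1) (hdj : d j = 2) (P : Place ℂ K) :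
    beta d x j (pl (h.sg j) P) = beta d x j P := by
  unfold beta
  refine Finset.sum_congr rfl fun i _ => ?_
  by_cases hi : i = j
  · rw [hi, Function.update_self]
    simp
  · rw [h.mo_pl hj hdj P hi]

/-- the defect: the multiplicity of the common zeros of the coefficients -/
noncomputable def Hyp.df (h : Hyp N d x e A B C) (j : Fin r) (P : Place ℂ K) : ℤ :=
  P.ord (value x (A j)) + minimalOrder (x j) P + minimalOrder (x j) (pl (h.sg j) P) - beta d x j P

theorem Hyp.df_aux {j : Fin r} (hj : n j = 1) (hdj : d j = 2) (P : Place ℂ K) (β : ℤ) :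
    (Ge P β (value x (A j)) ∧ Ge P β (value x (B j)) ∧ Ge P β (value x (C j))) ↔
      β ≤ P.ord (value x (A j)) + minimalOrder (x j) P + minimalOrder (x j) (pl (h.sg j) P) := by
  obtain ⟨h1, h2, h3⟩ := h.coef_mem hj hdj
  obtain ⟨-, hf, hne⟩ := h.sg_spec hj hdj
  obtain ⟨e1, e2⟩ := vieta (hf _ h1) (hf _ h2) (hf _ h3) (h.rel j hj hdj) hne
  have hA0 := h.A_ne hj hdj
  have hneg : ∀ {m : ℤ} {f : K}, Ge P m (-f) ↔ Ge P m f := fun {m f} =>
    ⟨fun h => by simpa using h.neg, fun h => h.neg⟩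
  rw [mo_line hj (h.hx0 j), mo_line hj (h.hx0 j), pl_ord]
  constructor
  · rintro ⟨g1, g2, g3⟩
    rw [e1, hneg] at g2
    rw [e2] at g3
    exact quad_le hA0 g1 g2 g3
  · intro hβ
    obtain ⟨g1, g2, g3⟩ := quad_ge (P := P) (a := value x (A j)) (ξ := x j (Fin.last (n j)))
      (ξ' := h.sg j (x j (Fin.last (n j))))
    refine ⟨g1.mono hβ, ?_, ?_⟩
    · rw [e1, hneg]
      exact g2.mono hβ
    · rw [e2]
      exact g3.mono hβ

theorem Hyp.df_nonneg {j : Fin r} (hj : n j = 1) (hdj : d j = 2) (P : Place ℂ K) :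
    0 ≤ h.df j P := by
  have h1 := (h.df_aux hj hdj P (beta d x j P)).1 ⟨value_ge (h.hA j hj hdj) P,
    value_ge (h.hB j hj hdj) P, value_ge (h.hC j hj hdj) P⟩
  unfold Hyp.df
  omega

theorem Hyp.df_pos_iff {j : Fin r} (hj : n j = 1) (hdj : d j = 2) (P : Place ℂ K) :
    0 < h.df j P ↔ (VanishesAt x (Function.update d j 0) (A j) P ∧
      VanishesAt x (Function.update d j 0) (B j) P ∧
      VanishesAt x (Function.update d j 0) (C j) P) := by
  rw [vanishes_iff, vanishes_iff, vanishes_iff]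
  have h1 := h.df_aux hj hdj P (beta d x j P + 1)
  unfold beta at h1
  rw [h1]
  unfold Hyp.df beta
  omega

theorem Hyp.df_pl {j : Fin r} (hj : n j = 1) (hdj : d j = 2) (P : Place ℂ K) :
    h.df j (pl (h.sg j) P) = h.df j P := by
  unfold Hyp.df
  rw [pl_pl (h.sg_spec hj hdj).1, h.beta_pl hj hdj, pl_ord,
    (h.sg_spec hj hdj).2.1 _ (h.coef_mem hj hdj).1]
  ring

/-- the coefficients of the hyperplane classes -/
noncomputable def dl (x : ∀ i, Fin (n i + 1) → K) : Fin r → Place ℂ K → ℚ :=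
  fun i P => - (minimalOrder (x i) P : ℚ)

omit h in
/-- the matrix of the reflections -/
def al (d : Fin r → ℕ) : Fin r → Fin r → ℤ := fun j i => if i = j then -2 else d i

theorem Hyp.RR_ne {j : Fin r} (hj : n j = 1) (hdj : d j = 2) (P : Place ℂ K) {i : Fin r}
    (hi : i ≠ j) : RR (al d) h.sg (fun j => value x (A j)) j (dl x) i P = dl x i P := by
  unfold RR dl
  rw [if_neg hi, add_zero, h.mo_pl hj hdj P hi]

theorem Hyp.RR_self {j : Fin r} (hj : n j = 1) (hdj : d j = 2) (P : Place ℂ K) :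
    RR (al d) h.sg (fun j => value x (A j)) j (dl x) j P = dl x j P + h.df j P := by
  unfold RR dl Hyp.df
  rw [if_pos rfl]
  have e1 : ∑ k, (al d j k : ℚ) * -(minimalOrder (x k) (pl (h.sg j) P) : ℚ) =
      2 * minimalOrder (x j) (pl (h.sg j) P) - beta d x j P := by
    have e2 : ∀ k, (al d j k : ℚ) * -(minimalOrder (x k) (pl (h.sg j) P) : ℚ) =
        (if k = j then 2 * (minimalOrder (x j) (pl (h.sg j) P) : ℚ) else 0) -
          (Function.update d j 0 k : ℤ) * (minimalOrder (x k) P : ℚ) := by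
      intro k
      unfold al
      by_cases hk : k = j
      · rw [if_pos hk, if_pos hk, hk, Function.update_self]
        push_cast
        ring
      · rw [if_neg hk, if_neg hk, Function.update_of_ne hk, h.mo_pl hj hdj P hk]
        push_cast
        ring
    rw [Finset.sum_congr rfl fun k _ => e2 k, Finset.sum_sub_distrib,
      Finset.sum_ite_eq' Finset.univ j, if_pos (Finset.mem_univ j)]
    unfold beta
    push_cast
    rfl
  rw [e1]
  push_cast
  ring

end

end Pool.Agent.H73.TF
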