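import Pool.Agent.H73.TF.Geo

/-!
The covering involutions of hypersurfaces of degree two in a projective line.
-/

set_option autoImplicit false

open FF Pool.Agent.W602.GT Pool.Agent.W603.LV Pool.Agent.Y172

namespace Pool.Agent.H73.TF

section

variable {K : Type} [Field K] [Algebra ℂ K]

/-- **The involution of a quadratic extension.** -/
theorem exists_inv (L : IntermediateField ℂ K) {a b c ξ : K} (ha : a ∈ L) (hb : b ∈ L)
    (hc : c ∈ L) (hne : ¬ (a = 0 ∧ b = 0 ∧ c = 0)) (h : a * ξ ^ 2 + b * ξ + c = 0) (hξ : ξ ∉ L)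
    (htop : ∀ E : IntermediateField ℂ K, L ≤ E → ξ ∈ E → E = ⊤) :
    ∃ σ : K ≃ₐ[ℂ] K, (∀ f, σ (σ f) = f) ∧ (∀ f ∈ L, σ f = f) ∧ σ ξ ≠ ξ := by
  classical
  set p : Polynomial L := Polynomial.C ⟨a, ha⟩ * Polynomial.X ^ 2 +
    Polynomial.C ⟨b, hb⟩ * Polynomial.X + Polynomial.C ⟨c, hc⟩ with hp
  have hcoef : ∀ k, p.coeff k = if k = 2 then ⟨a, ha⟩ else if k = 1 then ⟨b, hb⟩ else
      if k = 0 then ⟨c, hc⟩ else 0 := by
    intro k
    rw [hp]
    simp only [Polynomial.coeff_add, Polynomial.coeff_C_mul, Polynomial.coeff_X_pow,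
      Polynomial.coeff_X, Polynomial.coeff_C]
    rcases k with _ | _ | _ | k
    · norm_num
    · norm_num
    · norm_num
    · norm_num
  have hp0 : p ≠ 0 := by
    intro h0
    refine hne ⟨?_, ?_, ?_⟩
    · have := hcoef 2
      rw [h0, Polynomial.coeff_zero, if_pos rfl] at this
      exact (congrArg Subtype.val this).symm
    · have := hcoef 1
      rw [h0, Polynomial.coeff_zero, if_neg (by norm_num), if_pos rfl] at this
      exact (congrArg Subtype.val this).symm
    · have := hcoef 0
      rw [h0, Polynomial.coeff_zero, if_neg (by norm_num), if_neg (by norm_num), if_pos rfl] at this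
      exact (congrArg Subtype.val this).symm
  have hpξ : Polynomial.aeval ξ p = 0 := by
    rw [hp]
    simp only [map_add, map_mul, Polynomial.aeval_C, map_pow, Polynomial.aeval_X]
    exact h
  have hpdeg : p.natDegree ≤ 2 := by
    rw [Polynomial.natDegree_le_iff_coeff_eq_zero]
    intro k hk
    rw [hcoef, if_neg (by omega), if_neg (by omega), if_neg (by omega)]
  have halg : IsAlgebraic L ξ := ⟨p, hp0, hpξ⟩
  have hint : IsIntegral L ξ := halg.isIntegral
  have hdeg2 : (minpoly L ξ).natDegree ≤ 2 :=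
    (Polynomial.natDegree_le_of_dvd (minpoly.dvd L ξ hpξ) hp0).trans hpdeg
  have hdeg1 : (minpoly L ξ).natDegree ≠ 1 := by
    intro h1
    rw [minpoly.natDegree_eq_one_iff] at h1
    obtain ⟨l, hl⟩ := h1
    exact hξ (hl ▸ l.2)
  have hdeg0 := minpoly.natDegree_pos hint
  have hLtop : IntermediateField.adjoin L {ξ} = ⊤ := by
    have h1 := htop ((IntermediateField.adjoin L {ξ}).restrictScalars ℂ)
      (fun l hl => (IntermediateField.adjoin L {ξ}).algebraMap_mem (⟨l, hl⟩ : L))
      (IntermediateField.mem_adjoin_simple_self L ξ)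
    rw [eq_top_iff]
    intro f _
    have h2 : f ∈ (IntermediateField.adjoin L {ξ}).restrictScalars ℂ := by
      rw [h1]; trivial
    exact h2
  have hrank : Module.finrank L K = 2 := by
    have h1 := IntermediateField.adjoin.finrank hint
    rw [hLtop, IntermediateField.finrank_top'] at h1
    rw [h1]
    omega
  have hfin : FiniteDimensional L K := Module.finite_of_finrank_pos (by omega)
  have hquad : Algebra.IsQuadraticExtension L K := ⟨hrank⟩
  have hchar : CharZero L := inferInstance
  have hgal : IsGalois L K := inferInstance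
  have hcard : Nat.card (K ≃ₐ[L] K) = 2 := by
    rw [IsGalois.card_aut_eq_finrank, hrank]
  obtain ⟨τ, hτ⟩ : ∃ τ : K ≃ₐ[L] K, τ ≠ 1 := by
    by_contra hcon
    push Not at hcon
    have h1 : Nat.card (K ≃ₐ[L] K) = 1 := by
      rw [Nat.card_eq_one_iff_unique]
      exact ⟨⟨fun a b => (hcon a).trans (hcon b).symm⟩, ⟨1⟩⟩
    omega
  have hττ : τ * τ = 1 := by
    have h1 : τ ^ Nat.card (K ≃ₐ[L] K) = 1 := pow_card_eq_one'
    rw [hcard, pow_two] at h1
    exact h1
  refine ⟨τ.restrictScalars ℂ, fun f => ?_, fun f hf => ?_, fun h1 => hτ ?_⟩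
  · exact congrArg (fun g : K ≃ₐ[L] K => g f) hττ
  · exact τ.commutes (⟨f, hf⟩ : L)
  · have h2 := htop ((IntermediateField.fixedField (Subgroup.zpowers τ)).restrictScalars ℂ) ?_ ?_
    · ext f
      have h3 : f ∈ (IntermediateField.fixedField (Subgroup.zpowers τ)).restrictScalars ℂ := by
        rw [h2]; trivial
      have h4 : f ∈ IntermediateField.fixedField (Subgroup.zpowers τ) := h3
      rw [IntermediateField.mem_fixedField_iff] at h4
      exact h4 τ (Subgroup.mem_zpowers τ)
    · intro l hl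
      exact (IntermediateField.fixedField (Subgroup.zpowers τ)).algebraMap_mem (⟨l, hl⟩ : L)
    · change ξ ∈ IntermediateField.fixedField (Subgroup.zpowers τ)
      rw [IntermediateField.mem_fixedField_iff]
      intro g hg
      obtain ⟨m, rfl⟩ := Subgroup.mem_zpowers_iff.1 hg
      have h5 : τ ξ = ξ := h1
      have h6 : ∀ m : ℤ, (τ ^ m) ξ = ξ := by
        intro m
        have h7 : τ ^ m = 1 ∨ τ ^ m = τ := by
          rcases Int.even_or_odd' m with ⟨k, rfl | rfl⟩
          · left
            rw [zpow_mul, zpow_ofNat, pow_two, hττ, one_zpow]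
          · right
            rw [zpow_add, zpow_mul, zpow_ofNat, pow_two, hττ, one_zpow, one_mul, zpow_one]
        rcases h7 with h7 | h7
        · rw [h7]; rfl
        · rw [h7]; exact h5
      exact h6 m

/-- the relations of the roots -/
theorem vieta {a b c ξ : K} {σ : K ≃ₐ[ℂ] K} (ha : σ a = a) (hb : σ b = b) (hc : σ c = c)
    (h : a * ξ ^ 2 + b * ξ + c = 0) (hne : σ ξ ≠ ξ) :
    b = - (a * (ξ + σ ξ)) ∧ c = a * (ξ * σ ξ) := by
  have h1 : a * (σ ξ) ^ 2 + b * σ ξ + c = 0 := by
    have := congrArg σ h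
    simpa only [map_add, map_mul, map_pow, ha, hb, hc, map_zero] using this
  have h2 : (ξ - σ ξ) * (a * (ξ + σ ξ) + b) = 0 := by linear_combination h - h1
  have h3 : a * (ξ + σ ξ) + b = 0 := by
    rcases mul_eq_zero.1 h2 with h3 | h3
    · exact absurd (sub_eq_zero.1 h3).symm hne
    · exact h3
  refine ⟨by linear_combination h3, by linear_combination h - ξ * h3⟩

end

end Pool.Agent.H73.TF
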