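import Pool.Agent.R869.OneDim
import Pool.Agent.Y172.UpB

/-!
Functions without poles at the places which are trivial on a subfield.
-/

set_option autoImplicit false

open FF Pool.Agent.W602.GT

namespace Pool.Agent.H73.TF

section

variable {K : Type} [Field K] [Algebra ℂ K] {N : ℕ}

/-- a place which is trivial on a subfield, as a place over the complex numbers -/
def down {M : Type} [Field M] [Algebra ℂ M] [Algebra M K] [IsScalarTower ℂ M K]
    (P : Place M K) : Place ℂ K where
  ord := P.ord
  ord_zero := P.ord_zero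
  ord_mul := P.ord_mul
  ord_add := P.ord_add
  ord_const := fun {c} hc => by
    rw [IsScalarTower.algebraMap_apply ℂ M K]
    exact P.ord_const ((map_ne_zero (algebraMap ℂ M)).2 hc)
  surj := P.surj

theorem down_div {M : Type} [Field M] [Algebra ℂ M] [Algebra M K] [IsScalarTower ℂ M K]
    (hN : Algebra.trdeg ℂ K = N) [IsFF M K] (P : Place M K) : Divisorial N (down P) := by
  obtain ⟨g, hg⟩ := IsFF.exists_transcendental (k := M) (K := K)
  have h1 : Algebra.trdeg M K = 1 := by
    have h2 := (IsFF.basis hg).cardinalMk_eq_trdeg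
    rw [← h2]
    simp
  have h3 : Algebra.trdeg ℂ M + Algebra.trdeg M K = Algebra.trdeg ℂ K :=
    trdeg_add_eq ℂ M
  rw [h1, hN] at h3
  obtain ⟨B, hB⟩ := exists_isTranscendenceBasis ℂ M
  have hcard := hB.cardinalMk_eq_trdeg
  have hfin : Finite B := by
    rw [← Cardinal.lt_aleph0_iff_finite, hcard]
    refine lt_of_le_of_lt ?_ (Cardinal.natCast_lt_aleph0 (n := N))
    rw [← h3]
    exact self_le_add_right _ _
  obtain ⟨m, ⟨e⟩⟩ := Finite.exists_equiv_fin B
  have hm : m = N - 1 := by
    rw [← hcard, Cardinal.mk_congr e, Cardinal.mk_fin] at h3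
    have h4 : m + 1 = N := by exact_mod_cast h3
    omega
  subst hm
  refine ⟨fun i => algebraMap M K (e.symm i : M), fun F hF => ?_⟩
  have hind : AlgebraicIndependent ℂ (fun i => ((e.symm i : B) : M)) := hB.1.comp _ e.symm.injective
  have h1 : MvPolynomial.aeval (fun i => ((e.symm i : B) : M)) F ≠ 0 := fun h0 =>
    hF ((injective_iff_map_eq_zero _).1 hind F h0)
  have h2 : MvPolynomial.aeval (fun i => algebraMap M K (e.symm i : M)) F =
      algebraMap M K (MvPolynomial.aeval (fun i => ((e.symm i : B) : M)) F) :=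
    MvPolynomial.aeval_algebraMap_apply _ _ _
  rw [h2]
  refine ⟨(map_ne_zero (algebraMap M K)).2 h1, ?_⟩
  exact P.ord_const h1

/-- **No negative multiples.** Let `t` be transcendental over the subfield `F`. No function is
regular at all divisorial places which are trivial on `F` and zero at those at which `t` has a
pole. -/
theorem no_section [Algebra.EssFiniteType ℂ K] (hN : Algebra.trdeg ℂ K = N)
    (F : IntermediateField ℂ K) {t f : K} (ht : Transcendental F t) (hf0 : f ≠ 0)
    (h : ∀ Q : Place ℂ K, Divisorial N Q → (∀ a ∈ F, a ≠ 0 → Q.ord a = 0) →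
      0 ≤ Q.ord f ∧ (Q.ord t < 0 → 0 < Q.ord f)) : False := by
  have hess : Algebra.EssFiniteType F K := Algebra.EssFiniteType.of_comp ℂ F K
  obtain ⟨M, hMt, hFF⟩ := Pool.Agent.R869.exists_one_dim hess ht
  have htow : IsScalarTower ℂ M K := IsScalarTower.of_algebraMap_eq fun c => rfl
  have key : ∀ P : Place M K, 0 ≤ P.ord f ∧ (P.ord t < 0 → 0 < P.ord f) := by
    intro P
    refine h (down P) (down_div hN P) fun a ha ha0 => ?_
    have h1 : algebraMap M K (algebraMap F M ⟨a, ha⟩) = a := rfl
    have h2 : algebraMap F M ⟨a, ha⟩ ≠ 0 := by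
      intro h3
      rw [h3, map_zero] at h1
      exact ha0 h1.symm
    have h3 := P.ord_const h2
    rw [h1] at h3
    exact h3
  by_cases hf : Transcendental M f
  · obtain ⟨P, hP⟩ := Pool.Agent.R869.exists_pole hf
    exact absurd (key P).1 (not_le.2 hP)
  · obtain ⟨P, hP⟩ := Pool.Agent.R869.exists_pole hMt
    have h1 := P.ord_eq_zero_of_isAlgebraic hf0 (by simpa [Transcendental] using hf)
    have h2 := (key P).2 hP
    omega

end

end Pool.Agent.H73.TF
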