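import Pool.Agent.H73.TF.Abs

/-!
Reflections and the small modifications.
-/

set_option autoImplicit false

open FF Pool.Agent.W602.GT

namespace Pool.Agent.H73.TF

section

variable {K : Type} [Field K] [Algebra ℂ K] {p N : ℕ}

/-- the reflection -/
def rf {A : Type} [CommRing A] (α : Fin p → Fin p → ℤ) (j : Fin p) (μ : Fin p → A) : Fin p → A :=
  fun i => μ i + α j i * μ j

/-- the transformed coefficients -/
def RR (α : Fin p → Fin p → ℤ) (σ : Fin p → K ≃ₐ[ℂ] K) (z : Fin p → K) (j : Fin p)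
    (ε : Fin p → Place ℂ K → ℚ) : Fin p → Place ℂ K → ℚ := fun i P =>
  ε i (pl (σ j) P) + if i = j then ∑ k, (α j k : ℚ) * ε k (pl (σ j) P) + P.ord (z j) else 0

/-- Varieties with a basis of semiample divisors such that the facets of the nef cone are of fibre
type or reflecting. -/
structure Refl (N : ℕ) (δ : Fin p → Place ℂ K → ℚ) (J : Set (Fin p)) (α : Fin p → Fin p → ℤ)
    (σ : Fin p → K ≃ₐ[ℂ] K) (z : Fin p → K) (θ : Fin p → ℤ) : Prop where
  ex : ∃ P : Place ℂ K, Divisorial N P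
  sa : ∀ i, Semiample N δ (Pi.single i 1)
  fib : ∀ j ∉ J, ∀ μ f, f ≠ 0 → IsSection N δ μ f → 0 ≤ μ j
  self : ∀ j ∈ J, α j j = -2
  z0 : ∀ j ∈ J, z j ≠ 0
  inv : ∀ j ∈ J, ∀ f, σ j (σ j f) = f
  σz : ∀ j ∈ J, σ j (z j) = z j
  refl : ∀ j ∈ J, ∀ (μ : Fin p → ℤ) f, IsSection N δ μ f →
    IsSection N δ (rf α j μ) (z j ^ (μ j) * σ j f)
  flop : ∀ j ∈ J, ∃ P, Divisorial N P ∧ δ j P < RR α σ z j δ j P
  deg : ∀ μ f, f ≠ 0 → IsSection N δ μ f → 0 ≤ ∑ i, θ i * μ i
  pos : ∀ j ∈ J, 0 < ∑ i, θ i * α j i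

variable {δ δ' δ'' : Fin p → Place ℂ K → ℚ} {J : Set (Fin p)} {α : Fin p → Fin p → ℤ}
  {σ : Fin p → K ≃ₐ[ℂ] K} {z : Fin p → K} {θ : Fin p → ℤ}

theorem rf_self {A : Type} [CommRing A] {j : Fin p} (h : α j j = -2) (μ : Fin p → A) :
    rf α j μ j = - μ j := by
  unfold rf
  rw [h]
  push_cast
  ring

theorem rf_rf {A : Type} [CommRing A] {j : Fin p} (h : α j j = -2) (μ : Fin p → A) :
    rf α j (rf α j μ) = μ := by
  funext i
  have h1 := rf_self h μ
  unfold rf at h1 ⊢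
  rw [h1]
  ring

theorem rf_add {A : Type} [CommRing A] (j : Fin p) (μ ν : Fin p → A) :
    rf α j (μ + ν) = rf α j μ + rf α j ν := by
  funext i
  simp only [rf, Pi.add_apply]
  ring

theorem rf_smul {A : Type} [CommRing A] (j : Fin p) (t : A) (μ : Fin p → A) :
    rf α j (t • μ) = t • rf α j μ := by
  funext i
  simp only [rf, Pi.smul_apply, smul_eq_mul]
  ring

theorem rf_cast (j : Fin p) (ν : Fin p → ℤ) (i : Fin p) :
    ((rf α j ν i : ℤ) : ℚ) = rf α j (fun i => (ν i : ℚ)) i := by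
  unfold rf
  push_cast
  ring

theorem rf_castR (j : Fin p) (ν : Fin p → ℤ) (i : Fin p) :
    ((rf α j ν i : ℤ) : ℝ) = rf α j (fun i => (ν i : ℝ)) i := by
  unfold rf
  push_cast
  ring

/-- the coefficients of the transform -/
theorem RR_sum (j : Fin p) (ε : Fin p → Place ℂ K → ℚ) (P : Place ℂ K) (μ : Fin p → ℚ) :
    ∑ i, μ i * RR α σ z j ε i P =
      ∑ i, rf α j μ i * ε i (pl (σ j) P) + μ j * P.ord (z j) := by
  have e : ∀ i, μ i * RR α σ z j ε i P = μ i * ε i (pl (σ j) P) +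
      if i = j then μ j * (∑ k, (α j k : ℚ) * ε k (pl (σ j) P) + P.ord (z j)) else 0 := by
    intro i
    unfold RR
    by_cases h : i = j
    · rw [if_pos h, if_pos h, h]
      ring
    · rw [if_neg h, if_neg h]
      ring
  rw [Finset.sum_congr rfl fun i _ => e i, Finset.sum_add_distrib, Finset.sum_ite_eq' Finset.univ j,
    if_pos (Finset.mem_univ j), mul_add, Finset.mul_sum, ← add_assoc, ← Finset.sum_add_distrib]
  congr 1
  refine Finset.sum_congr rfl fun i _ => ?_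
  unfold rf
  ring

theorem RR_sum' (h : Refl N δ J α σ z θ) {j : Fin p} (hj : j ∈ J) (ε : Fin p → Place ℂ K → ℚ)
    (P : Place ℂ K) (μ : Fin p → ℚ) :
    ∑ i, rf α j μ i * RR α σ z j ε i P =
      ∑ i, μ i * ε i (pl (σ j) P) - μ j * P.ord (z j) := by
  rw [RR_sum, rf_rf (h.self j hj), rf_self (h.self j hj)]
  ring

variable (h : Refl N δ J α σ z θ)
include h

theorem Refl.pl_pl {j : Fin p} (hj : j ∈ J) (P : Place ℂ K) : pl (σ j) (pl (σ j) P) = P :=
  Pool.Agent.H73.TF.pl_pl (h.inv j hj) P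

theorem Refl.ord_z {j : Fin p} (hj : j ∈ J) (P : Place ℂ K) :
    (pl (σ j) P).ord (z j) = P.ord (z j) := by
  rw [pl_ord, h.σz j hj]

/-- sections of the transform -/
theorem Refl.sec_RR {j : Fin p} (hj : j ∈ J) (ε : Fin p → Place ℂ K → ℚ) (μ : Fin p → ℤ) (f : K) :
    IsSection N ε μ f ↔ IsSection N (RR α σ z j ε) (rf α j μ) (z j ^ (μ j) * σ j f) := by
  have hz := h.z0 j hj
  have hzz : z j ^ (μ j) ≠ 0 := zpow_ne_zero _ hz
  have key : ∀ P : Place ℂ K, f ≠ 0 →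
      ((- ∑ i, ((rf α j μ i : ℤ) : ℚ) * RR α σ z j ε i P ≤ P.ord (z j ^ (μ j) * σ j f)) ↔
        (- ∑ i, (μ i : ℚ) * ε i (pl (σ j) P) ≤ (pl (σ j) P).ord f)) := by
    intro P hf
    have hσf : σ j f ≠ 0 := by rwa [Ne, map_eq_zero]
    rw [Finset.sum_congr rfl fun i _ => by rw [rf_cast], RR_sum' h hj, P.ord_mul hzz hσf,
      P.ord_zpow, pl_ord]
    push_cast
    constructor <;> intro h1 <;> linarith
  constructor
  · intro h1 P hP
    by_cases hf : f = 0
    · left; rw [hf, map_zero, mul_zero]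
    right
    exact (key P hf).2 ((h1 _ (pl_div _ hP)).resolve_left hf)
  · intro h1 P hP
    by_cases hf : f = 0
    · left; exact hf
    right
    have hσf : σ j f ≠ 0 := by rwa [Ne, map_eq_zero]
    have h2 := (key (pl (σ j) P) hf).1 ((h1 _ (pl_div _ hP)).resolve_left (mul_ne_zero hzz hσf))
    rwa [h.pl_pl hj] at h2

/-- the inverse transformation of functions -/
theorem Refl.back {j : Fin p} (hj : j ∈ J) (μ : Fin p → ℤ) (f : K) :
    z j ^ (rf α j μ j) * σ j (z j ^ (μ j) * σ j f) = f := by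
  rw [rf_self (h.self j hj), map_mul, map_zpow₀, h.σz j hj, h.inv j hj, ← mul_assoc,
    ← zpow_add₀ (h.z0 j hj)]
  simp

theorem Refl.refl_iff {j : Fin p} (hj : j ∈ J) (μ : Fin p → ℤ) (f : K) :
    IsSection N δ μ f ↔ IsSection N δ (rf α j μ) (z j ^ (μ j) * σ j f) := by
  refine ⟨h.refl j hj μ f, fun h1 => ?_⟩
  have h2 := h.refl j hj _ _ h1
  rwa [rf_rf (h.self j hj), h.back hj] at h2

/-- the transform of a family with the same sections has the same sections -/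
theorem Refl.same_RR {j : Fin p} (hj : j ∈ J) (hs : Same N δ δ') : Same N δ (RR α σ z j δ') := by
  intro μ f
  have e1 : rf α j (rf α j μ) = μ := rf_rf (h.self j hj) μ
  have e2 := h.back hj μ f
  rw [h.refl_iff hj μ f, hs (rf α j μ), h.sec_RR hj δ' (rf α j μ), e1, e2]

theorem Refl.bpf_RR {j : Fin p} (hj : j ∈ J) {ε : Fin p → Place ℂ K → ℚ} {ν : Fin p → ℤ}
    (hb : BasePointFree N ε ν) : BasePointFree N (RR α σ z j ε) (rf α j ν) := by
  intro P hP
  obtain ⟨f, hf0, hf, hfo⟩ := hb _ (pl_div (σ j) hP)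
  have hz := h.z0 j hj
  have hzz : z j ^ (ν j) ≠ 0 := zpow_ne_zero _ hz
  have hσf : σ j f ≠ 0 := by rwa [Ne, map_eq_zero]
  refine ⟨z j ^ (ν j) * σ j f, mul_ne_zero hzz hσf, (h.sec_RR hj ε ν f).1 hf, ?_⟩
  rw [Finset.sum_congr rfl fun i _ => by rw [rf_cast], RR_sum' h hj, P.ord_mul hzz hσf, P.ord_zpow]
  rw [pl_ord] at hfo
  push_cast
  linarith

theorem Refl.semiample_RR {j : Fin p} (hj : j ∈ J) {ε : Fin p → Place ℂ K → ℚ} {μ : Fin p → ℚ}
    (hb : Semiample N ε μ) : Semiample N (RR α σ z j ε) (rf α j μ) := by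
  obtain ⟨k, hk, ν, hν, hb⟩ := hb
  refine ⟨k, hk, rf α j ν, fun i => ?_, h.bpf_RR hj hb⟩
  rw [rf_cast]
  have e1 := hν i
  have e2 := hν j
  change (k : ℚ) * (μ i + (α j i : ℚ) * μ j) = (ν i : ℚ) + (α j i : ℚ) * (ν j : ℚ)
  rw [← e1, ← e2]
  ring

/-- the transformation is an involution -/
theorem Refl.RR_RR {j : Fin p} (hj : j ∈ J) (ε : Fin p → Place ℂ K → ℚ) :
    RR α σ z j (RR α σ z j ε) = ε := by
  funext i P
  have e : ∀ (ε : Fin p → Place ℂ K → ℚ), ∑ k, (Pi.single i (1 : ℚ) : Fin p → ℚ) k * ε k P =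
      ε i P := by
    intro ε
    rw [Finset.sum_eq_single i]
    · simp
    · intro k _ hk
      rw [Pi.single_eq_of_ne hk, zero_mul]
    · intro hi
      exact absurd (Finset.mem_univ i) hi
  rw [← e (RR α σ z j (RR α σ z j ε)), ← e ε, RR_sum, RR_sum, rf_rf (h.self j hj),
    rf_self (h.self j hj), h.pl_pl hj, h.ord_z hj]
  ring

theorem Refl.eqv_RR {j : Fin p} {ε ε' : Fin p → Place ℂ K → ℚ} (he : Eqv N ε ε') :
    Eqv N (RR α σ z j ε) (RR α σ z j ε') := by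
  intro P hP i
  unfold RR
  have h1 := he _ (pl_div (σ j) hP)
  rw [h1 i, Finset.sum_congr rfl fun k _ => by rw [h1 k]]

end

end Pool.Agent.H73.TF
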