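import Pool.Agent.H73.TF.Fin

/-!
Termination of flips on hypersurfaces in products of projective spaces.
-/

set_option autoImplicit false

open FF Pool.Agent.W602.GT Pool.Agent.W603.LV Pool.Agent.Y172

namespace Pool.Agent.H73.TF

section

variable {K : Type} [Field K] [Algebra ℂ K] {r N M : ℕ} {n : Fin r → ℕ}
variable {d : Fin r → ℕ} {x : ∀ i, Fin (n i + 1) → K} {e : Fin (M + 1) ≃ (∀ i, Fin (n i + 1))}
  {A B C : Fin r → MvPolynomial (Σ i : Fin r, Fin (n i + 1)) ℂ}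

/-- **Termination, with a bound for the sequences which start with `X`.** -/
theorem Hyp.main (h : Hyp N d x e A B C) {κ : Fin r → ℝ}
    (hκ : ∀ j, n j = 1 → d j = 2 → κ j = 0) {q : ℕ} (E : Fin q → Fin r → ℤ)
    (hE : ∀ k, ∃ f, f ≠ 0 ∧ IsSection N (dl x) (E k) f) (c : Fin q → ℝ) (hc : ∀ k, 0 < c k) :
    (∀ (L : ℕ) (δs : ℕ → Fin r → Place ℂ K → ℚ), δs 0 = dl x →
      (∀ j ≤ L, IsSmallModification N (dl x) (δs j)) →
      (∀ j < L, IsFlip N (fun i => κ i + ∑ k, c k * E k i) (δs j) (δs (j + 1))) →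
      L < ∏ k, (⌊(∑ l, c l * ∑ i, (th n d i : ℝ) * E l i) / c k⌋₊ + 1)) ∧
    ∀ δ₀ : Fin r → Place ℂ K → ℚ, IsSmallModification N (dl x) δ₀ → ∃ B : ℕ,
      ∀ (L : ℕ) (δs : ℕ → Fin r → Place ℂ K → ℚ), δs 0 = δ₀ →
        (∀ j ≤ L, IsSmallModification N (dl x) (δs j)) →
        (∀ j < L, IsFlip N (fun i => κ i + ∑ k, c k * E k i) (δs j) (δs (j + 1))) → L < B := by
  have hR := h.refl
  have hκ' : ∀ j ∈ {j | n j = 1 ∧ d j = 2}, κ j = 0 := fun j hj => hκ j hj.1 hj.2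
  refine ⟨fun L δs h0 hm hf => ?_, fun δ₀ hδ₀ => ?_⟩
  · have h1 := hR.terminates hκ' E hE c hc [] (by simp) L δs (by
      rw [h0]; exact fun P _ i => rfl) hm hf
    exact h1
  · obtain ⟨hs, lam, ε, hε, ha⟩ := hδ₀
    obtain ⟨w, hw, hew⟩ := hR.classify hs ⟨ε, hε, ha⟩
    refine ⟨_, fun L δs h0 hm hf => hR.terminates hκ' E hE c hc w hw L δs ?_ hm hf⟩
    rw [h0]
    exact hew

end

end Pool.Agent.H73.TF
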