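import Pool.Agent.H73.TF.GDefs
import Pool.Agent.H73.TF.Pole

/-!
Transcendence degrees.
-/

set_option autoImplicit false

open FF Pool.Agent.W602.GT

namespace Pool.Agent.H73.TF

section

variable {K : Type} [Field K] [Algebra ℂ K] {r N : ℕ} {n : Fin r → ℕ}
  {x : ∀ i, Fin (n i + 1) → K}

/-- the weights of the monomials of a form -/
theorem weight_eq {g : Fin r → ℕ} {G : MvPolynomial (Σ i : Fin r, Fin (n i + 1)) ℂ}
    (hG : IsForm g G) {s : (Σ i : Fin r, Fin (n i + 1)) →₀ ℕ} (hs : s ∈ G.support) (i : Fin r) :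
    ∑ v, s v * (if v.1 = i then 1 else 0) = g i := by
  have h1 := hG i (MvPolynomial.mem_support_iff.1 hs)
  rw [Finsupp.weight_apply, Finsupp.sum_fintype _ _ (fun v => by simp)] at h1
  simpa [smul_eq_mul] using h1

theorem deg_ne {g : Fin r → ℕ} {G : MvPolynomial (Σ i : Fin r, Fin (n i + 1)) ℂ}
    (hG : IsForm g G) {s : (Σ i : Fin r, Fin (n i + 1)) →₀ ℕ} (hs : s ∈ G.support)
    {v : Σ i : Fin r, Fin (n i + 1)} (hv : s v ≠ 0) : g v.1 ≠ 0 := by
  intro h0
  have h1 := weight_eq hG hs v.1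
  rw [h0, Finset.sum_eq_zero_iff] at h1
  have h2 := h1 v (Finset.mem_univ v)
  rw [if_pos rfl, mul_one] at h2
  exact hv h2

theorem value_eq (G : MvPolynomial (Σ i : Fin r, Fin (n i + 1)) ℂ) : value x G =
    ∑ s ∈ G.support, algebraMap ℂ K (G.coeff s) * ∏ v, x v.1 v.2 ^ s v := by
  unfold value
  rw [MvPolynomial.aeval_def, MvPolynomial.eval₂_eq']

/-- the value of a form is in the field generated by the coordinates which occur -/
theorem value_mem {g : Fin r → ℕ} {G : MvPolynomial (Σ i : Fin r, Fin (n i + 1)) ℂ}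
    (hG : IsForm g G) (E : IntermediateField ℂ K) (hE : ∀ i, g i ≠ 0 → ∀ k, x i k ∈ E) :
    value x G ∈ E := by
  rw [value_eq]
  refine sum_mem fun s hs => mul_mem (E.algebraMap_mem _) (prod_mem fun v _ => ?_)
  by_cases hv : s v = 0
  · rw [hv, pow_zero]
    exact one_mem E
  · exact pow_mem (hE v.1 (deg_ne hG hs hv) v.2) _

/-- the elements which are algebraic over a subfield -/
noncomputable def acl (F : IntermediateField ℂ K) : IntermediateField ℂ K :=
  (algebraicClosure F K).restrictScalars ℂ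

theorem mem_acl {F : IntermediateField ℂ K} {f : K} : f ∈ acl F ↔ IsAlgebraic F f := by
  unfold acl
  rw [IntermediateField.mem_restrictScalars, mem_algebraicClosure_iff]

theorem le_acl (F : IntermediateField ℂ K) : F ≤ acl F := fun f hf =>
  mem_acl.2 (isAlgebraic_algebraMap (⟨f, hf⟩ : F))

theorem acl_trans {F E : IntermediateField ℂ K} (h : E ≤ acl F) {f : K} (hf : IsAlgebraic E f) :
    f ∈ acl F := by
  rw [mem_acl]
  have h1 : IsAlgebraic (acl F) f := by
    obtain ⟨p, hp0, hp⟩ := hf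
    let j : E →+* acl F := (IntermediateField.inclusion h).toRingHom
    refine ⟨p.map j, (Polynomial.map_ne_zero_iff j.injective).2 hp0, ?_⟩
    rw [Polynomial.aeval_def, Polynomial.eval₂_map]
    exact hp
  have h2 : IsAlgebraic (algebraicClosure F K) f := h1
  have h3 : Algebra.IsAlgebraic F (algebraicClosure F K) := inferInstance
  exact h2.restrictScalars F

/-- roots of quadratic polynomials -/
theorem acl_quad {F : IntermediateField ℂ K} {a b c ξ : K} (ha : a ∈ acl F) (hb : b ∈ acl F)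
    (hc : c ∈ acl F) (ha0 : a ≠ 0) (h : a * ξ ^ 2 + b * ξ + c = 0) : ξ ∈ acl F := by
  refine acl_trans (E := acl F) le_rfl ⟨Polynomial.C ⟨a, ha⟩ * Polynomial.X ^ 2 +
    Polynomial.C ⟨b, hb⟩ * Polynomial.X + Polynomial.C ⟨c, hc⟩, fun h0 => ?_, ?_⟩
  · have h1 := congrArg (fun p => Polynomial.coeff p 2) h0
    simp only [Polynomial.coeff_add, Polynomial.coeff_C_mul, Polynomial.coeff_X_pow,
      Polynomial.coeff_X, Polynomial.coeff_C, Polynomial.coeff_zero] at h1
    norm_num at h1
    exact ha0 (congrArg Subtype.val h1)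
  · simp only [map_add, map_mul, Polynomial.aeval_C, map_pow, Polynomial.aeval_X]
    exact h

/-- the field generated by the coordinates of the factors which are not in `T` -/
noncomputable def FT (x : ∀ i, Fin (n i + 1) → K) (T : Finset (Fin r)) : IntermediateField ℂ K :=
  IntermediateField.adjoin ℂ {a | ∃ i, i ∉ T ∧ ∃ k, a = x i k}

theorem mem_FT {T : Finset (Fin r)} {i : Fin r} (hi : i ∉ T) (k : Fin (n i + 1)) :
    x i k ∈ FT x T := IntermediateField.subset_adjoin ℂ _ ⟨i, hi, k, rfl⟩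

/-- counting -/
theorem count (hx0 : ∀ i, x i 0 = 1) (hgen : IntermediateField.adjoin ℂ {a | ∃ i k, a = x i k} = ⊤)
    (hN : Algebra.trdeg ℂ K = N) (T : Finset (Fin r)) (h : ∀ i ∈ T, ∀ k, x i k ∈ acl (FT x T)) :
    N ≤ ∑ i ∈ Tᶜ, n i := by
  classical
  have hall : acl (FT x T) = ⊤ := by
    rw [eq_top_iff, ← hgen, IntermediateField.adjoin_le_iff]
    rintro _ ⟨i, k, rfl⟩
    by_cases hi : i ∈ T
    · exact h i hi k
    · exact le_acl _ (mem_FT hi k)
  let S : Finset (Σ i : Fin r, Fin (n i)) := Finset.univ.filter fun v => v.1 ∉ T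
  let s : Set K := (fun v : Σ i : Fin r, Fin (n i) => x v.1 v.2.succ) '' S
  have hFs : FT x T = IntermediateField.adjoin ℂ s := by
    refine le_antisymm ?_ ?_
    · unfold FT
      rw [IntermediateField.adjoin_le_iff]
      rintro _ ⟨i, hi, k, rfl⟩
      induction k using Fin.cases with
      | zero => rw [hx0]; exact one_mem _
      | succ k =>
        refine IntermediateField.subset_adjoin ℂ _ ⟨⟨i, k⟩, ?_, rfl⟩
        simp [S, hi]
    · rw [IntermediateField.adjoin_le_iff]
      rintro _ ⟨v, hv, rfl⟩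
      have hv' : v.1 ∉ T := by simpa [S] using hv
      exact mem_FT hv' _
  have halg : Algebra.IsAlgebraic (Algebra.adjoin ℂ s) K := by
    refine ⟨fun f => ?_⟩
    have h1 : f ∈ acl (FT x T) := by rw [hall]; trivial
    rw [mem_acl, hFs] at h1
    exact IntermediateField.isAlgebraic_adjoin_iff.1 h1
  have h1 : Algebra.trdeg ℂ K ≤ Cardinal.mk s := Algebra.IsAlgebraic.trdeg_le_cardinalMk ℂ s
  have h2 : Cardinal.mk s ≤ (S.card : ℕ) := by
    have := Cardinal.mk_image_le (f := fun v : Σ i : Fin r, Fin (n i) => x v.1 v.2.succ)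
      (s := (S : Set (Σ i : Fin r, Fin (n i))))
    exact this.trans (le_of_eq (Cardinal.mk_coe_finset (s := S)))
  rw [hN] at h1
  have h3 : N ≤ S.card := by exact_mod_cast h1.trans h2
  have h4 : S.card = ∑ i ∈ Tᶜ, n i := by
    have e1 : S = (Tᶜ : Finset (Fin r)).sigma fun i => Finset.univ := by
      ext v
      simp [S]
    rw [e1, Finset.card_sigma]
    simp
  omega

end

end Pool.Agent.H73.TF
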