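import Pool.Agent.H73.TF.Term

/-!
Uniqueness of the sequences of flips, and the dichotomy.
-/

set_option autoImplicit false

open FF Pool.Agent.W602.GT

namespace Pool.Agent.H73.TF

section vectors

variable {p : ℕ} {J : Set (Fin p)} {α : Fin p → Fin p → ℤ}

/-- after `m` reflections at negative coordinates in `J` there are no negative coordinates in `J` -/
def Ends (J : Set (Fin p)) (α : Fin p → Fin p → ℤ) : ℕ → (Fin p → ℝ) → Prop
  | 0, v => ∀ j ∈ J, 0 ≤ v j
  | m + 1, v => ∃ j ∈ J, v j < 0 ∧ Ends J α m (rf α j v)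

theorem Ends.good (hs : ∀ j ∈ J, α j j = -2) (hα : ∀ j ∈ J, ∀ k ∈ J, j ≠ k → α j k = 2) {m : ℕ} :
    ∀ {v : Fin p → ℝ}, Ends J α m v → ∀ j ∈ J, ∀ k ∈ J, j ≠ k → v j < 0 → 0 < v j + v k := by
  induction m with
  | zero =>
    intro v h j hj k _ _ hneg
    exact absurd (h j hj) (not_le.2 hneg)
  | succ m ih =>
    intro v h
    obtain ⟨i, hi, hneg, he⟩ := h
    have hg := ih he
    have e1 : rf α i v i = - v i := rf_self (hs i hi) v
    have e2 : ∀ k ∈ J, k ≠ i → rf α i v k = v k + 2 * v i := by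
      intro k hk hki
      unfold rf
      rw [hα i hi k hk (Ne.symm hki)]
      push_cast
      ring
    have key : ∀ k ∈ J, k ≠ i → 0 < v i + v k := by
      intro k hk hki
      by_cases hk0 : rf α i v k < 0
      · have h1 := hg k hk i hi hki hk0
        rw [e1, e2 k hk hki] at h1
        linarith
      · push Not at hk0
        rw [e2 k hk hki] at hk0
        linarith
    intro j hj k hk hjk hj0
    by_cases hji : j = i
    · rw [hji]
      exact key k hk (fun h => hjk (hji.trans h.symm))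
    · have h1 := key j hj hji
      linarith

theorem Ends.next (hs : ∀ j ∈ J, α j j = -2) (hα : ∀ j ∈ J, ∀ k ∈ J, j ≠ k → α j k = 2) {m : ℕ}
    {v : Fin p → ℝ} (h : Ends J α (m + 1) v) {k : Fin p} (hk : k ∈ J) (hneg : v k < 0) :
    Ends J α m (rf α k v) := by
  have hg := h.good hs hα
  obtain ⟨i, hi, hi0, he⟩ := h
  by_cases hki : k = i
  · rw [hki]
    exact he
  · have := hg k hk i hi hki hneg
    linarith

theorem Ends.unique (hs : ∀ j ∈ J, α j j = -2) (hα : ∀ j ∈ J, ∀ k ∈ J, j ≠ k → α j k = 2) {m : ℕ}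
    {v : Fin p → ℝ} (h : Ends J α m v) {j k : Fin p} (hj : j ∈ J) (hk : k ∈ J) (hj0 : v j < 0)
    (hk0 : v k < 0) : j = k := by
  by_contra hjk
  have := h.good hs hα j hj k hk hjk hj0
  linarith

theorem Ends.step (hs : ∀ j ∈ J, α j j = -2) (hα : ∀ j ∈ J, ∀ k ∈ J, j ≠ k → α j k = 2) {m : ℕ}
    {v : Fin p → ℝ} (h : Ends J α m v) {j : Fin p} (hj : j ∈ J) :
    ∃ m', Ends J α m' (rf α j v) := by
  rcases lt_trichotomy (v j) 0 with hlt | heq | hgt
  · cases m with
    | zero => exact absurd (h j hj) (not_le.2 hlt)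
    | succ m => exact ⟨m, h.next hs hα hj hlt⟩
  · refine ⟨m, ?_⟩
    have e : rf α j v = v := by
      funext i
      unfold rf
      rw [heq, mul_zero, add_zero]
    rw [e]
    exact h
  · refine ⟨m + 1, j, hj, ?_, ?_⟩
    · rw [rf_self (hs j hj)]
      linarith
    · rw [rf_rf (hs j hj)]
      exact h

theorem Ends.word (hs : ∀ j ∈ J, α j j = -2) (hα : ∀ j ∈ J, ∀ k ∈ J, j ≠ k → α j k = 2)
    (w : List (Fin p)) (hw : ∀ j ∈ w, j ∈ J) : ∀ {m : ℕ} {v : Fin p → ℝ}, Ends J α m v →
    ∃ m', Ends J α m' (co α w v) := by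
  induction w with
  | nil => exact fun {m v} h => ⟨m, h⟩
  | cons k w ih =>
    intro m v h
    obtain ⟨m', h'⟩ := h.step hs hα (hw k (List.mem_cons_self ..))
    exact ih (fun j hj => hw j (List.mem_cons_of_mem k hj)) h'

theorem co_app (a b : List (Fin p)) (v : Fin p → ℝ) : co α (a ++ b) v = co α b (co α a v) := by
  induction a generalizing v with
  | nil => rfl
  | cons k a ih => exact ih (rf α k v)

theorem co_rev (hs : ∀ j ∈ J, α j j = -2) (w : List (Fin p)) (hw : ∀ j ∈ w, j ∈ J)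
    (v : Fin p → ℝ) : co α w.reverse (co α w v) = v := by
  induction w generalizing v with
  | nil => rfl
  | cons k w ih =>
    rw [List.reverse_cons, co_append]
    change rf α k (co α w.reverse (co α w (rf α k v))) = v
    rw [ih (fun j hj => hw j (List.mem_cons_of_mem k hj)),
      rf_rf (hs k (hw k (List.mem_cons_self ..)))]

end vectors

section

variable {K : Type} [Field K] [Algebra ℂ K] {p : ℕ}

/-- `δs 0, ..., δs L` is a sequence of `L` flips for `∑ i, w i * D i` which starts with the small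
modification with the coefficients `δ₀`. -/
def IsSequence (N : ℕ) (δ : Fin p → Place ℂ K → ℚ) (w : Fin p → ℝ) (δ₀ : Fin p → Place ℂ K → ℚ)
    (L : ℕ) (δs : ℕ → Fin p → Place ℂ K → ℚ) : Prop :=
  δs 0 = δ₀ ∧ (∀ j ≤ L, IsSmallModification N δ (δs j)) ∧
    ∀ j < L, IsFlip N w (δs j) (δs (j + 1))

/-- Every small modification of `X` has a flip for `∑ i, w i * D i`, so no sequence of flips for
this combination ends. -/
def Endless (N : ℕ) (δ : Fin p → Place ℂ K → ℚ) (w : Fin p → ℝ) : Prop :=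
  ∀ δ', IsSmallModification N δ δ' → ∃ δ'', IsSmallModification N δ δ'' ∧ IsFlip N w δ' δ''

/-- All sequences of flips for `∑ i, w i * D i` which start with the small modification with the
coefficients `δ₀` are initial segments of one sequence of `L` flips: they have at most `L` steps, and
their members have the same coefficients at all prime divisors over `X`. -/
def OneSequence (N : ℕ) (δ : Fin p → Place ℂ K → ℚ) (w : Fin p → ℝ)
    (δ₀ : Fin p → Place ℂ K → ℚ) (L : ℕ) : Prop :=
  ∃ δt, IsSequence N δ w δ₀ L δt ∧ ∀ L' δs, IsSequence N δ w δ₀ L' δs →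
    L' ≤ L ∧ ∀ j ≤ L', ∀ P, Divisorial N P → ∀ i, δs j i P = δt j i P

variable {N : ℕ}
variable {δ δ' δ'' : Fin p → Place ℂ K → ℚ} {J : Set (Fin p)} {α : Fin p → Fin p → ℤ}
  {σ : Fin p → K ≃ₐ[ℂ] K} {z : Fin p → K} {θ : Fin p → ℤ}

variable (h : Refl N δ J α σ z θ)
include h

/-- the models are small modifications -/
theorem Refl.small_mo {w : List (Fin p)} (hw : ∀ j ∈ w, j ∈ J) :
    IsSmallModification N δ (mo α σ z δ w) := by
  have hA : ∃ lam, AmpleAt N (mo α σ z δ w) lam := by
    induction w with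
    | nil =>
      refine ⟨fun _ => 1, 1, one_pos, fun μ hμ => semiample_of_basis h.sa fun i => ?_⟩
      have := (abs_le.1 (hμ i)).1
      linarith
    | cons k w ih =>
      obtain ⟨lam, hl⟩ := ih fun j hj => hw j (List.mem_cons_of_mem k hj)
      exact ⟨_, h.ample_RR (hw k (List.mem_cons_self ..)) hl⟩
  obtain ⟨lam, ε, hε, ha⟩ := hA
  exact ⟨h.same_mo hw, lam, ε, hε, ha⟩

/-- the first flip -/
theorem Refl.isFlip_RR {j : Fin p} (hj : j ∈ J) {D : Fin p → ℝ} (hD : D j < 0) :
    IsFlip N D δ (RR α σ z j δ) := by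
  have hsumR : ∀ μ : Fin p → ℝ, ∑ i, ((Pi.single j (1 : ℚ) : Fin p → ℚ) i : ℝ) * μ i = μ j := by
    intro μ
    rw [Finset.sum_eq_single j]
    · simp
    · intro k _ hk
      rw [Pi.single_eq_of_ne hk]
      simp
    · intro hi
      exact absurd (Finset.mem_univ j) hi
  have hsum : ∀ μ : Fin p → ℚ, ∑ i, (Pi.single j (1 : ℚ) : Fin p → ℚ) i * μ i = μ j := by
    intro μ
    rw [Finset.sum_eq_single j]
    · simp
    · intro k _ hk
      rw [Pi.single_eq_of_ne hk, zero_mul]
    · intro hi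
      exact absurd (Finset.mem_univ j) hi
  refine ⟨Pi.single j 1, fun i => if i = j then 0 else 1, 1, one_pos, ?_, fun μ hμ => ?_,
    fun μ hμ => ?_, ?_, fun μ hμ h0 => ?_⟩
  · rw [hsumR]
    exact hD
  · rw [hsum]
    exact h.nonneg hμ j
  · rw [hsum]
    have h1 := h.semiample_RR hj hμ
    rw [h.RR_RR hj] at h1
    have h2 := h.nonneg h1 j
    rw [rf_self (h.self j hj)] at h2
    linarith
  · rw [hsum]
    simp
  · rw [hsum] at h0
    have h1 : Semiample N δ μ := by
      refine semiample_of_basis h.sa fun i => ?_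
      by_cases hi : i = j
      · rw [hi, h0]
      · have h2 := (abs_le.1 (hμ i)).1
        dsimp only at h2
        rw [if_neg hi] at h2
        linarith
    refine ⟨h1, ?_⟩
    have h2 := h.semiample_RR hj h1
    have e : rf α j μ = μ := by
      funext i
      unfold rf
      rw [h0, mul_zero, add_zero]
    rwa [e] at h2

/-- the flips of the models -/
theorem Refl.isFlip_mo {w : List (Fin p)} (hw : ∀ j ∈ w, j ∈ J) {j : Fin p} (hj : j ∈ J) :
    ∀ {D : Fin p → ℝ}, co α w D j < 0 → IsFlip N D (mo α σ z δ w) (mo α σ z δ (w ++ [j])) := by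
  induction w with
  | nil => exact fun hD => h.isFlip_RR hj hD
  | cons k w ih =>
    intro D hD
    have hk := hw k (List.mem_cons_self ..)
    have h1 := h.flip_RR hk (ih (fun j hj => hw j (List.mem_cons_of_mem k hj)) (D := rf α k D) hD)
    rw [rf_rf (h.self k hk)] at h1
    exact h1

omit h in
theorem Eqv.refl' (δ : Fin p → Place ℂ K → ℚ) : Eqv N δ δ := fun _ _ _ => rfl

theorem Refl.flip_small {w : List (Fin p)} (hw : ∀ j ∈ w, j ∈ J) {D : Fin p → ℝ}
    (he : Eqv N δ' (mo α σ z δ w)) (hs : IsSmallModification N δ δ'') (hf : IsFlip N D δ' δ'') :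
    ∃ j ∈ J, co α w D j < 0 ∧ Eqv N δ'' (mo α σ z δ (w ++ [j])) := by
  obtain ⟨hs, lam, ε, hε, ha⟩ := hs
  exact h.flip_mo hw hs ⟨ε, hε, ha⟩ (hf.congr he (Eqv.refl' _))

variable (hα : ∀ j ∈ J, ∀ k ∈ J, j ≠ k → α j k = 2)
include hα

/-- **The chain.** -/
theorem Refl.chain {D : Fin p → ℝ} (m : ℕ) : ∀ w₀ : List (Fin p), (∀ j ∈ w₀, j ∈ J) →
    Ends J α m (co α w₀ D) → ∃ W : ℕ → List (Fin p), W 0 = w₀ ∧ (∀ i, ∀ j ∈ W i, j ∈ J) ∧
      (∀ i < m, IsFlip N D (mo α σ z δ (W i)) (mo α σ z δ (W (i + 1)))) ∧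
      ∀ δ₀ L δs, Eqv N δ₀ (mo α σ z δ w₀) → IsSequence N δ D δ₀ L δs →
        L ≤ m ∧ ∀ j ≤ L, Eqv N (δs j) (mo α σ z δ (W j)) := by
  induction m with
  | zero =>
    intro w₀ hw₀ he
    refine ⟨fun _ => w₀, rfl, fun _ => hw₀, fun i hi => absurd hi (Nat.not_lt_zero i), ?_⟩
    intro δ₀ L δs h0 hs
    obtain ⟨h1, h2, h3⟩ := hs
    cases L with
    | zero =>
      refine ⟨le_rfl, fun j hj => ?_⟩
      rw [Nat.le_zero.1 hj, h1]
      exact h0
    | succ L =>
      exfalso
      obtain ⟨j, hj, hj0, -⟩ := h.flip_small hw₀ (h1 ▸ h0) (h2 1 (by omega)) (h3 0 (by omega))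
      exact absurd (he j hj) (not_le.2 hj0)
  | succ m ih =>
    intro w₀ hw₀ he
    obtain ⟨j, hj, hj0⟩ : ∃ j ∈ J, co α w₀ D j < 0 := by
      obtain ⟨j, hj, hj0, -⟩ := he
      exact ⟨j, hj, hj0⟩
    have he' : Ends J α m (co α (w₀ ++ [j]) D) := by
      rw [co_append]
      exact he.next h.self hα hj hj0
    have hw' : ∀ k ∈ w₀ ++ [j], k ∈ J := by
      intro k hk
      rcases List.mem_append.1 hk with hk | hk
      · exact hw₀ k hk
      · rw [List.mem_singleton.1 hk]
        exact hj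
    obtain ⟨W, hW0, hWJ, hWf, hWu⟩ := ih (w₀ ++ [j]) hw' he'
    refine ⟨fun i => Nat.casesOn i w₀ W, rfl, fun i => ?_, fun i hi => ?_, ?_⟩
    · cases i with
      | zero => exact hw₀
      | succ i => exact hWJ i
    · cases i with
      | zero =>
        change IsFlip N D (mo α σ z δ w₀) (mo α σ z δ (W 0))
        rw [hW0]
        exact h.isFlip_mo hw₀ hj hj0
      | succ i => exact hWf i (by omega)
    · intro δ₀ L δs h0 hs
      obtain ⟨h1, h2, h3⟩ := hs
      cases L with
      | zero =>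
        refine ⟨Nat.zero_le _, fun i hi => ?_⟩
        rw [Nat.le_zero.1 hi, h1]
        exact h0
      | succ L =>
        obtain ⟨k, hk, hk0, hke⟩ := h.flip_small hw₀ (h1 ▸ h0) (h2 1 (by omega)) (h3 0 (by omega))
        have hkj : k = j := he.unique h.self hα hk hj hk0 hj0
        rw [hkj] at hke
        obtain ⟨h4, h5⟩ := hWu (δs 1) L (fun i => δs (i + 1)) hke
          ⟨rfl, fun i hi => h2 (i + 1) (by omega), fun i hi => h3 (i + 1) (by omega)⟩
        refine ⟨by omega, fun i hi => ?_⟩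
        cases i with
        | zero =>
          rw [h1]
          exact h0
        | succ i => exact h5 i (by omega)

theorem Refl.oneSequence {D : Fin p → ℝ} {m : ℕ} {w₀ : List (Fin p)} (hw₀ : ∀ j ∈ w₀, j ∈ J)
    (he : Ends J α m (co α w₀ D)) {δ₀ : Fin p → Place ℂ K → ℚ} (hδ₀ : IsSmallModification N δ δ₀)
    (h0 : Eqv N δ₀ (mo α σ z δ w₀)) : OneSequence N δ D δ₀ m := by
  obtain ⟨W, hW0, hWJ, hWf, hWu⟩ := h.chain hα m w₀ hw₀ he
  refine ⟨fun i => Nat.casesOn i δ₀ fun i => mo α σ z δ (W (i + 1)), ⟨rfl, fun i _ => ?_,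
    fun i hi => ?_⟩, fun L' δs hs => ?_⟩
  · cases i with
    | zero => exact hδ₀
    | succ i => exact h.small_mo (hWJ (i + 1))
  · cases i with
    | zero =>
      have h1 := hWf 0 hi
      rw [hW0] at h1
      exact h1.congr h0.symm (Eqv.refl' _)
    | succ i => exact hWf (i + 1) hi
  · obtain ⟨h1, h2⟩ := hWu δ₀ L' δs h0 hs
    refine ⟨h1, fun j hj => ?_⟩
    cases j with
    | zero =>
      rw [hs.1]
      exact Eqv.refl' _
    | succ j => exact h2 (j + 1) hj

/-- if the flips are not endless, all the vectors end -/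
theorem Refl.ends_of_not_endless {D : Fin p → ℝ} (hn : ¬ Endless N δ D) (w₀ : List (Fin p))
    (hw₀ : ∀ j ∈ w₀, j ∈ J) : ∃ m, Ends J α m (co α w₀ D) := by
  unfold Endless at hn
  push Not at hn
  obtain ⟨δ', hδ', hno⟩ := hn
  have hδ'2 := hδ'
  obtain ⟨hs, lam, ε, hε, ha⟩ := hδ'2
  obtain ⟨w, hw, hew⟩ := h.classify hs ⟨ε, hε, ha⟩
  have h0 : Ends J α 0 (co α w D) := by
    intro j hj
    by_contra hneg
    push Not at hneg
    have hw' : ∀ k ∈ w ++ [j], k ∈ J := by
      intro k hk
      rcases List.mem_append.1 hk with hk | hk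
      · exact hw k hk
      · rw [List.mem_singleton.1 hk]
        exact hj
    exact hno _ (h.small_mo hw') ((h.isFlip_mo hw hj hneg).congr hew.symm (Eqv.refl' _))
  have h1 : co α w₀ D = co α (w.reverse ++ w₀) (co α w D) := by
    rw [co_app, co_rev h.self w hw]
  rw [h1]
  refine h0.word h.self hα _ fun j hj => ?_
  rcases List.mem_append.1 hj with hj | hj
  · exact hw j (List.mem_reverse.1 hj)
  · exact hw₀ j hj

/-- **The dichotomy.** -/
theorem Refl.dichotomy (D : Fin p → ℝ) : ¬ Endless N δ D ↔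
    ∀ δ₀, IsSmallModification N δ δ₀ → ∃ m, OneSequence N δ D δ₀ m := by
  constructor
  · intro hn δ₀ hδ₀
    have hδ'2 := hδ₀
    obtain ⟨hs, lam, ε, hε, ha⟩ := hδ'2
    obtain ⟨w, hw, hew⟩ := h.classify hs ⟨ε, hε, ha⟩
    obtain ⟨m, hm⟩ := h.ends_of_not_endless hα hn w hw
    exact ⟨m, h.oneSequence hα hw hm hδ₀ hew⟩
  · intro hall hend
    obtain ⟨m, δt, ⟨h1, h2, h3⟩, h4⟩ := hall δ (h.small_mo (w := []) (by simp))
    obtain ⟨δ'', hs, hf⟩ := hend (δt m) (h2 m le_rfl)
    have h5 := (h4 (m + 1) (fun i => if i ≤ m then δt i else δ'') ⟨by simp [h1], fun i hi => ?_,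
      fun i hi => ?_⟩).1
    · omega
    · dsimp only
      split_ifs with h6
      · exact h2 i h6
      · exact hs
    · dsimp only
      by_cases h6 : i = m
      · rw [h6, if_pos le_rfl, if_neg (by omega)]
        exact hf
      · rw [if_pos (by omega), if_pos (by omega)]
        exact h3 i (by omega)

/-- two negative coordinates -/
theorem Refl.endless_pair {D : Fin p → ℝ} {j k : Fin p} (hj : j ∈ J) (hk : k ∈ J) (hjk : j ≠ k)
    (hneg : D j < 0) (hle : D j + D k ≤ 0) : Endless N δ D := by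
  by_contra hn
  obtain ⟨m, hm⟩ := h.ends_of_not_endless hα hn [] (by simp)
  have := hm.good h.self hα j hj k hk hjk hneg
  change 0 < D j + D k at this
  linarith

omit hα in
/-- **One sequence for the pairs.** -/
theorem Refl.one_of_pair {κ : Fin p → ℝ} (hκ : ∀ j ∈ J, κ j = 0) {q : ℕ}
    (E : Fin q → Fin p → ℤ) (hE : ∀ k, ∃ f, f ≠ 0 ∧ IsSection N δ (E k) f) (c : Fin q → ℝ)
    (hc : ∀ k, 0 < c k) : ¬ Endless N δ fun i => κ i + ∑ k, c k * E k i := by
  intro hend
  have hall : ∀ L : ℕ, ∃ δs, IsSequence N δ (fun i => κ i + ∑ k, c k * E k i) δ L δs := by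
    intro L
    induction L with
    | zero =>
      refine ⟨fun _ => δ, rfl, fun _ _ => h.small_mo (w := []) (by simp), fun j hj => ?_⟩
      exact absurd hj (Nat.not_lt_zero j)
    | succ L ih =>
      obtain ⟨δs, h1, h2, h3⟩ := ih
      obtain ⟨δ'', hs, hf⟩ := hend (δs L) (h2 L le_rfl)
      refine ⟨fun i => if i ≤ L then δs i else δ'', by simp [h1], fun i hi => ?_, fun i hi => ?_⟩
      · dsimp only
        split_ifs with h6
        · exact h2 i h6
        · exact hs
      · dsimp only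
        by_cases h6 : i = L
        · rw [h6, if_pos le_rfl, if_neg (by omega)]
          exact hf
        · rw [if_pos (by omega), if_pos (by omega)]
          exact h3 i (by omega)
  obtain ⟨δs, h1, h2, h3⟩ := hall
    (∏ k, (⌊(∑ l, c l * ∑ i, (θ i : ℝ) * (co α [] (E l) i : ℤ)) / c k⌋₊ + 1))
  have := h.terminates hκ E hE c hc [] (by simp) _ δs (by
    rw [h1]
    exact Eqv.refl' _) h2 h3
  exact lt_irrefl _ this

/-- effective combinations -/
theorem Refl.pair_nonneg {E : Fin p → ℤ} (hE : ∃ f, f ≠ 0 ∧ IsSection N δ E f) {j k : Fin p}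
    (hj : j ∈ J) (hk : k ∈ J) (hjk : j ≠ k) : 0 ≤ E j + E k := by
  have h1 := h.one_of_pair (κ := 0) (fun _ _ => rfl) (q := 1) (fun _ => E) (fun _ => hE)
    (fun _ => 1) fun _ => one_pos
  have e : (fun i => (0 : Fin p → ℝ) i + ∑ k : Fin 1, (fun _ => (1 : ℝ)) k *
      ((fun _ : Fin 1 => E) k i : ℝ)) = fun i => (E i : ℝ) := by
    funext i
    simp
  rw [e] at h1
  by_contra hneg
  push Not at hneg
  have hneg' : (E j : ℝ) + E k < 0 := by exact_mod_cast hneg
  rcases lt_or_ge (E j : ℝ) 0 with h2 | h2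
  · exact h1 (h.endless_pair hα hj hk hjk (D := fun i => (E i : ℝ)) h2 hneg'.le)
  · refine h1 (h.endless_pair hα hk hj (Ne.symm hjk) (D := fun i => (E i : ℝ)) ?_ ?_)
    · linarith
    · linarith

/-- **The length.** -/
theorem Refl.quad {κ : Fin p → ℝ} (hκ : ∀ j ∈ J, κ j = 0) {q : ℕ} (c : Fin q → ℝ) {b : ℝ}
    (hb : 0 < b) (hbc : ∀ k, b ≤ c k) (m : ℕ) : ∀ E : Fin q → Fin p → ℤ,
    (∀ k, ∃ f, f ≠ 0 ∧ IsSection N δ (E k) f) →
    Ends J α m (fun i => κ i + ∑ k, c k * E k i) →
    b * (m * (m - 1) / 2) ≤ ∑ l, c l * ∑ i, (θ i : ℝ) * E l i ∧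
      (1 ≤ m → ∀ j ∈ J, κ j + ∑ k, c k * E k j < 0 →
        b * (m - 1) ≤ - (κ j + ∑ k, c k * E k j)) := by
  induction m with
  | zero =>
    intro E hE _
    refine ⟨?_, fun h0 => absurd h0 (by norm_num)⟩
    rw [Nat.cast_zero, zero_mul, zero_div, mul_zero]
    refine Finset.sum_nonneg fun l _ => mul_nonneg (hb.le.trans (hbc l)) ?_
    obtain ⟨f, hf0, hf⟩ := hE l
    exact_mod_cast h.deg _ f hf0 hf
  | succ m ih =>
    intro E hE hends
    have hgood := hends.good h.self hα
    have huniq := fun {j k : Fin p} => hends.unique (j := j) (k := k) h.self hα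
    obtain ⟨j, hj, hj0, he⟩ := hends
    dsimp only at hj0
    have e : rf α j (fun i => κ i + ∑ k, c k * (E k i : ℝ)) =
        fun i => κ i + ∑ k, c k * ((rf α j (E k) i : ℤ) : ℝ) := by
      funext i
      have e1 : ∀ k, c k * ((rf α j (E k) i : ℤ) : ℝ) = c k * E k i + α j i * (c k * E k j) := by
        intro k
        rw [rf_castR]
        unfold rf
        ring
      rw [Finset.sum_congr rfl fun k _ => e1 k, Finset.sum_add_distrib, ← Finset.mul_sum]
      unfold rf
      dsimp only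
      rw [hκ j hj]
      ring
    rw [e] at he
    obtain ⟨h1, h2⟩ := ih (fun k => rf α j (E k)) (fun k => by
      obtain ⟨f, hf0, hf⟩ := hE k
      exact ⟨z j ^ (E k j) * σ j f, mul_ne_zero (zpow_ne_zero _ (h.z0 j hj))
        (by rwa [Ne, map_eq_zero]), h.refl j hj (E k) f hf⟩) he
    -- the coordinate
    have hcoord : b * m ≤ - (κ j + ∑ k, c k * E k j) := by
      cases m with
      | zero =>
        rw [Nat.cast_zero, mul_zero]
        linarith
      | succ m =>
        obtain ⟨k, hk, hk0, -⟩ := he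
        dsimp only at hk0
        have h3 := h2 (Nat.succ_pos m) k hk hk0
        have hjk : j ≠ k := by
          rintro rfl
          have h4 : κ j + ∑ k, c k * ((rf α j (E k) j : ℤ) : ℝ) =
              - (κ j + ∑ k, c k * E k j) := by
            rw [hκ j hj, zero_add, zero_add, ← Finset.sum_neg_distrib]
            refine Finset.sum_congr rfl fun k _ => ?_
            rw [rf_self (h.self j hj)]
            push_cast
            ring
          rw [h4] at hk0
          linarith
        have h4 : κ k + ∑ l, c l * ((rf α j (E l) k : ℤ) : ℝ) =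
            (κ k + ∑ l, c l * E l k) + 2 * (κ j + ∑ l, c l * E l j) := by
          rw [hκ j hj, hκ k hk, zero_add, zero_add, zero_add, Finset.mul_sum,
            ← Finset.sum_add_distrib]
          refine Finset.sum_congr rfl fun l _ => ?_
          unfold rf
          rw [hα j hj k hk hjk]
          push_cast
          ring
        have h5 : 0 < (κ j + ∑ l, c l * (E l j : ℝ)) + (κ k + ∑ l, c l * (E l k : ℝ)) :=
          hgood j hj k hk hjk hj0
        have h6 : (κ j + ∑ l, c l * (E l j : ℝ)) + (κ k + ∑ l, c l * (E l k : ℝ)) =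
            ∑ l, c l * ((E l j + E l k : ℤ) : ℝ) := by
          rw [hκ j hj, hκ k hk, zero_add, zero_add, ← Finset.sum_add_distrib]
          refine Finset.sum_congr rfl fun l _ => ?_
          push_cast
          ring
        have h7 : b ≤ ∑ l, c l * ((E l j + E l k : ℤ) : ℝ) := by
          have hn : ∀ l, 0 ≤ E l j + E l k := fun l => h.pair_nonneg hα (hE l) hj hk hjk
          obtain ⟨l, hl⟩ : ∃ l, E l j + E l k ≠ 0 := by
            by_contra hcon
            push Not at hcon
            rw [h6, Finset.sum_eq_zero fun l _ => by rw [hcon l, Int.cast_zero, mul_zero]] at h5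
            exact lt_irrefl _ h5
          have hl1 : 1 ≤ E l j + E l k := by
            have := hn l
            omega
          have hl2 : (1 : ℝ) ≤ ((E l j + E l k : ℤ) : ℝ) := by exact_mod_cast hl1
          have h8 : c l * ((E l j + E l k : ℤ) : ℝ) ≤ ∑ l, c l * ((E l j + E l k : ℤ) : ℝ) :=
            Finset.single_le_sum (f := fun l => c l * ((E l j + E l k : ℤ) : ℝ))
              (fun l _ => mul_nonneg (hb.le.trans (hbc l)) (by exact_mod_cast hn l))
              (Finset.mem_univ l)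
          have h9 := hbc l
          nlinarith
        rw [h4] at h3
        rw [← h6] at h7
        push_cast at h3 ⊢
        linarith
    refine ⟨?_, fun _ k hk hk0 => ?_⟩
    · have h3 : ∑ l, c l * ∑ i, (θ i : ℝ) * ((rf α j (E l) i : ℤ) : ℝ) =
          ∑ l, c l * ∑ i, (θ i : ℝ) * E l i +
            (∑ i, θ i * α j i : ℤ) * (κ j + ∑ k, c k * E k j) := by
        rw [hκ j hj, zero_add, Finset.mul_sum, ← Finset.sum_add_distrib]
        refine Finset.sum_congr rfl fun l _ => ?_
        have h4 := deg_rf (α := α) (θ := θ) j (E l)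
        have h5 : ∑ i, (θ i : ℝ) * ((rf α j (E l) i : ℤ) : ℝ) =
            ∑ i, (θ i : ℝ) * E l i + E l j * (∑ i, θ i * α j i : ℤ) := by
          exact_mod_cast h4
        rw [h5]
        ring
      rw [h3] at h1
      have h4 : (1 : ℝ) ≤ (∑ i, θ i * α j i : ℤ) := by exact_mod_cast h.pos j hj
      push_cast
      nlinarith
    · have hkj : k = j := huniq hk hj hk0 hj0
      rw [hkj]
      push_cast
      linarith

/-- **Long sequences.** -/
theorem Refl.long {κ : Fin p → ℝ} (hκ : ∀ j ∈ J, κ j = 0) (m : ℕ) : ∀ j ∈ J, ∀ k ∈ J, j ≠ k →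
    ∃ (E : Fin p → ℤ) (t : ℕ), 1 ≤ t ∧ (∃ f, f ≠ 0 ∧ IsSection N δ E f) ∧ E j = - (m * t : ℤ) ∧
      E k = (m + 1) * t ∧ ∀ c : ℝ, 0 < c → Ends J α m fun i => κ i + c * E i := by
  induction m with
  | zero =>
    intro j hj k hk hjk
    obtain ⟨t, ht, ν, hν, hf⟩ := (h.sa k).eff h.ex
    have hν1 : ∀ i, ν i = if i = k then (t : ℤ) else 0 := by
      intro i
      have h1 := hν i
      by_cases hik : i = k
      · rw [if_pos hik]
        rw [hik, Pi.single_eq_same, mul_one] at h1
        rw [hik]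
        exact_mod_cast h1.symm
      · rw [if_neg hik]
        rw [Pi.single_eq_of_ne hik, mul_zero] at h1
        exact_mod_cast h1.symm
    refine ⟨ν, t, ht, hf, ?_, ?_, fun c hc i hi => ?_⟩
    · rw [hν1, if_neg hjk]
      simp
    · rw [hν1, if_pos rfl]
      simp
    · dsimp only
      rw [hκ i hi, hν1, zero_add]
      split_ifs
      · positivity
      · simp
  | succ m ih =>
    intro j hj k hk hjk
    obtain ⟨E, t, ht, ⟨f, hf0, hf⟩, hEk, hEj, hends⟩ := ih k hk j hj (Ne.symm hjk)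
    refine ⟨rf α j E, t, ht, ⟨z j ^ (E j) * σ j f, mul_ne_zero (zpow_ne_zero _ (h.z0 j hj))
      (by rwa [Ne, map_eq_zero]), h.refl j hj E f hf⟩, ?_, ?_, fun c hc => ?_⟩
    · rw [rf_self (h.self j hj), hEj]
      push_cast
      ring
    · unfold rf
      rw [hα j hj k hk hjk, hEj, hEk]
      push_cast
      ring
    · have e : (fun i => κ i + c * ((rf α j E i : ℤ) : ℝ)) = rf α j fun i => κ i + c * E i := by
        funext i
        rw [rf_castR]
        unfold rf
        dsimp only
        rw [hκ j hj]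
        ring
      refine ⟨j, hj, ?_, ?_⟩
      · rw [e, rf_self (h.self j hj), hκ j hj, hEj]
        push_cast
        have : (0 : ℝ) < t := by exact_mod_cast ht
        have : 0 < c * ((m + 1) * t) := by positivity
        linarith
      · rw [e, rf_rf (h.self j hj)]
        exact hends c hc

end

end Pool.Agent.H73.TF
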